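import Pool.Agent.H74.TR.Stm

set_option autoImplicit false

namespace Pool.Agent.H74.TR.T.BD1

open MeasureTheory Filter Topology Set
open Pool.Agent.H74.TR
open Pool.Agent.H74.OD (kap One Rec bc S_INI S_DIS S_ONED)

theorem main : S_BD1 := by
  intro Y G hY hG
  have hfin : IsFiniteMeasure (volume.restrict (Ioo 0 Y)) := ⟨by simp⟩
  have hint : Integrable G (volume.restrict (Ioo 0 Y)) := hG.integrable (by norm_num)
  have hI : 0 ≤ ∫ y in Ioo 0 Y, |G y| := integral_nonneg fun y => abs_nonneg _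
  refine ⟨2 / Y * (∫ y in Ioo 0 Y, |G y|) + 1, by positivity, fun k => ?_⟩
  have h1 : |∫ y in Ioo 0 Y, G y * Real.sin (kap Y k * y)| ≤ ∫ y in Ioo 0 Y, |G y| := by
    refine (abs_integral_le_integral_abs).trans ?_
    refine integral_mono_of_nonneg (ae_of_all _ fun y => abs_nonneg _) hint.abs (ae_of_all _ fun y => ?_)
    simp only [abs_mul]
    exact mul_le_of_le_one_right (abs_nonneg _) (Real.abs_sin_le_one _)
  unfold sc
  rw [abs_mul, abs_of_pos (by positivity : 0 < 2 / Y)]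
  have h2 : 2 / Y * |∫ y in Ioo 0 Y, G y * Real.sin (kap Y k * y)| ≤ 2 / Y * ∫ y in Ioo 0 Y, |G y| :=
    mul_le_mul_of_nonneg_left h1 (by positivity)
  linarith

end Pool.Agent.H74.TR.T.BD1
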