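import Pool.Agent.H74.TR.Stm

/-! # Project TR, stub CHV (helper27) -/

set_option autoImplicit false

namespace Pool.Agent.H74.TR.T.CHV

open MeasureTheory Filter Topology Set
open scoped ENNReal

theorem cont_ell (h : ℝ) (i : Fin 3) : Continuous (ell h i) := by
  have h0 : Continuous (fun x : Fin 3 → ℝ => x 0) := continuous_apply 0
  have h1 : Continuous (fun x : Fin 3 → ℝ => x 1) := continuous_apply 1
  fin_cases i
  · exact h1
  · show Continuous fun x : Fin 3 → ℝ => (√3 * x 0 - x 1) / 2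
    fun_prop
  · show Continuous fun x : Fin 3 → ℝ => h - (√3 * x 0 + x 1) / 2
    fun_prop

theorem box (A B D : Set ℝ) :
    volume (Set.pi univ ![A, B, D] : Set (Fin 3 → ℝ)) = volume A * volume B * volume D := by
  rw [volume_pi_pi, Fin.prod_univ_three]
  simp

theorem lin (a : ℝ) (A B D : Set ℝ) :
    volume {x : Fin 3 → ℝ | √3 / 2 * x 0 + a * x 1 ∈ A ∧ x 1 ∈ B ∧ x 2 ∈ D} =
      ENNReal.ofReal |(√3 / 2)⁻¹| * (volume A * volume B * volume D) := by
  have h3 : (0 : ℝ) < √3 := by positivity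
  have hdet : LinearMap.det (Matrix.toLin' !![√3 / 2, a, 0; 0, 1, 0; 0, 0, 1]) = √3 / 2 := by
    rw [LinearMap.det_toLin']
    simp [Matrix.det_fin_three]
  have h1 := Measure.addHaar_preimage_linearMap (volume : Measure (Fin 3 → ℝ))
    (f := Matrix.toLin' !![√3 / 2, a, 0; 0, 1, 0; 0, 0, 1]) (by rw [hdet]; positivity)
    (Set.pi univ ![A, B, D])
  rw [hdet, box] at h1
  rw [← h1]
  congr 1
  ext x
  simp only [mem_ofPred_eq, mem_preimage, mem_univ_pi, Fin.forall_fin_succ, Matrix.toLin'_apply, Matrix.mulVec,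
    dotProduct, Fin.sum_univ_three]
  simp

theorem key (h c : ℝ) (hh : 0 < h) (hc : 0 < c) : ∃ C : ℝ≥0∞, C ≠ ⊤ ∧ ∀ (i : Fin 3) (s : Set ℝ),
    volume (ell h i ⁻¹' s ∩ TriD h c) ≤ C * volume (s ∩ Ioo 0 h) := by
  have h3 : (1 : ℝ) ≤ √3 := by
    rw [Real.one_le_sqrt]; norm_num
  set K0 : ℝ≥0∞ := ENNReal.ofReal (2 * h) * ENNReal.ofReal (2 * c) with hK0
  set K1 : ℝ≥0∞ := ENNReal.ofReal |(√3 / 2)⁻¹| * (ENNReal.ofReal h * ENNReal.ofReal (2 * c)) with hK1
  have hmem : ∀ x ∈ TriD h c, (0 < x 1 ∧ 0 < (√3 * x 0 - x 1) / 2 ∧ 0 < h - (√3 * x 0 + x 1) / 2) ∧ |x 2| < c := by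
    intro x hx
    exact ⟨⟨hx.1 0, hx.1 1, hx.1 2⟩, hx.2⟩
  have hvc : volume (Ioo (-c) c) = ENNReal.ofReal (2 * c) := by
    rw [Real.volume_Ioo]; congr 1; ring
  refine ⟨K0 + K1, by rw [hK0, hK1]; finiteness, fun i s => ?_⟩
  rw [add_mul]
  fin_cases i
  · refine le_trans ?_ le_self_add
    have h1 : ell h 0 ⁻¹' s ∩ TriD h c ⊆ Set.pi univ ![Ioo 0 (2 * h), s ∩ Ioo 0 h, Ioo (-c) c] := by
      rintro x ⟨hxs, hx⟩
      obtain ⟨⟨a1, a2, a3⟩, a4⟩ := hmem x hx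
      have hx0 : 0 < x 0 := by
        by_contra hcon
        have : √3 * x 0 ≤ 0 := mul_nonpos_of_nonneg_of_nonpos (by positivity) (not_lt.1 hcon)
        linarith
      have hx0' : x 0 ≤ √3 * x 0 := by nlinarith
      have hxs' : x 1 ∈ s := hxs
      simp only [mem_univ_pi, Fin.forall_fin_succ]
      simp only [Matrix.cons_val_zero, Matrix.cons_val_succ]
      have hx1 : x 1 < h := by linarith
      refine ⟨⟨hx0, by linarith⟩, ⟨hxs', a1, hx1⟩, abs_lt.1 a4, fun i => i.elim0⟩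
    refine (measure_mono h1).trans (le_of_eq ?_)
    rw [box, hvc, Real.volume_Ioo, sub_zero, hK0]; ring
  · refine le_trans ?_ le_add_self
    have h1 : ell h 1 ⁻¹' s ∩ TriD h c ⊆
        {x : Fin 3 → ℝ | √3 / 2 * x 0 + (-(1 / 2)) * x 1 ∈ s ∩ Ioo 0 h ∧ x 1 ∈ Ioo 0 h ∧ x 2 ∈ Ioo (-c) c} := by
      rintro x ⟨hxs, hx⟩
      obtain ⟨⟨a1, a2, a3⟩, a4⟩ := hmem x hx
      have hxs' : (√3 * x 0 - x 1) / 2 ∈ s := hxs
      have e : √3 / 2 * x 0 + (-(1 / 2)) * x 1 = (√3 * x 0 - x 1) / 2 := by ring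
      simp only [mem_ofPred_eq]
      rw [e]
      exact ⟨⟨hxs', a2, by linarith⟩, ⟨a1, by linarith⟩, abs_lt.1 a4⟩
    refine (measure_mono h1).trans (le_of_eq ?_)
    rw [lin, hvc, Real.volume_Ioo, sub_zero, hK1]; ring
  · refine le_trans ?_ le_add_self
    have h1 : ell h 2 ⁻¹' s ∩ TriD h c ⊆
        {x : Fin 3 → ℝ | √3 / 2 * x 0 + (1 / 2) * x 1 ∈ (fun t => h - t) ⁻¹' (s ∩ Ioo 0 h) ∧ x 1 ∈ Ioo 0 h ∧
          x 2 ∈ Ioo (-c) c} := by
      rintro x ⟨hxs, hx⟩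
      obtain ⟨⟨a1, a2, a3⟩, a4⟩ := hmem x hx
      have hxs' : h - (√3 * x 0 + x 1) / 2 ∈ s := hxs
      have e : √3 / 2 * x 0 + (1 / 2) * x 1 = (√3 * x 0 + x 1) / 2 := by ring
      simp only [mem_ofPred_eq, mem_preimage]
      rw [e]
      exact ⟨⟨hxs', a3, by linarith⟩, ⟨a1, by linarith⟩, abs_lt.1 a4⟩
    refine (measure_mono h1).trans (le_of_eq ?_)
    have h2 : volume ((fun t => h - t) ⁻¹' (s ∩ Ioo 0 h)) = volume (s ∩ Ioo 0 h) :=
      (Measure.measurePreserving_sub_left volume h).measure_preimage_emb (Homeomorph.subLeft h).measurableEmbedding _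
    rw [lin, h2, hvc, Real.volume_Ioo, sub_zero, hK1]; ring

theorem main : S_CHV := by
  intro h c hh hc
  obtain ⟨C, hC, hk⟩ := key h c hh hc
  refine ⟨C, hC, fun i F hF => ?_⟩
  have hm : Measurable (ell h i) := (cont_ell h i).measurable
  have hle : Measure.map (ell h i) (volume.restrict (TriD h c)) ≤ C • volume.restrict (Ioo 0 h) := by
    refine Measure.le_iff.2 fun s hs => ?_
    rw [Measure.map_apply hm hs, Measure.restrict_apply (hm hs), Measure.smul_apply, Measure.restrict_apply hs,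
      smul_eq_mul]
    exact hk i s
  have hF2 : AEMeasurable F (Measure.map (ell h i) (volume.restrict (TriD h c))) :=
    (hF.smul_measure C).mono_measure hle
  rw [← lintegral_map' hF2 hm.aemeasurable]
  calc ∫⁻ y, F y ∂(Measure.map (ell h i) (volume.restrict (TriD h c)))
      ≤ ∫⁻ y, F y ∂(C • volume.restrict (Ioo 0 h)) := lintegral_mono' hle le_rfl
    _ = C * ∫⁻ y in Ioo 0 h, F y := by rw [lintegral_smul_measure, smul_eq_mul]

end Pool.Agent.H74.TR.T.CHV
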