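import Pool.Agent.H74.TR.Stm
import Pool.Agent.H74.OD.T.INI

/-! # TR-DIS (helper3) -/

set_option autoImplicit false

namespace Pool.Agent.H74.TR.T.DIS

open MeasureTheory Filter Topology Set
open scoped ENNReal
open Pool.Agent.H74.OD (kap One Rec bc S_INI S_DIS S_ONED)

lemma bc_sep {Y : ℝ} (hY : 0 < Y) (G : ℝ → ℝ) (k n : ℕ) :
    bc Y Y (fun q => G q.1 * Real.sin (kap Y 0 * q.2)) k n = if n = 0 then sc Y G k else 0 := by
  unfold bc sc
  have h1 : ∀ q : ℝ × ℝ, G q.1 * Real.sin (kap Y 0 * q.2) *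
      (Real.sin (kap Y k * q.1) * Real.sin (kap Y n * q.2)) =
      (G q.1 * Real.sin (kap Y k * q.1)) * (Real.sin (kap Y 0 * q.2) * Real.sin (kap Y n * q.2)) := by
    intro q
    ring
  simp_rw [h1]
  unfold Rec
  rw [Measure.volume_eq_prod, setIntegral_prod_mul (fun x => G x * Real.sin (kap Y k * x))
    (fun y => Real.sin (kap Y 0 * y) * Real.sin (kap Y n * y)), Pool.Agent.H74.OD.T.INI.orth1 hY]
  by_cases h : n = 0
  · subst h
    rw [if_pos rfl, if_pos rfl]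
    field_simp
    ring
  · rw [if_neg (Ne.symm h), if_neg h, mul_zero, mul_zero]

lemma memv {Y : ℝ} {G : ℝ → ℝ} (hG : MemLp G 2 (volume.restrict (Ioo 0 Y))) :
    MemLp (fun q : ℝ × ℝ => G q.1 * Real.sin (kap Y 0 * q.2)) 2 (volume.restrict (Rec Y Y)) := by
  have hm : MemLp (fun q : ℝ × ℝ => G q.1) 2 (volume.restrict (Rec Y Y)) := by
    unfold Rec
    rw [Measure.volume_eq_prod, ← Measure.prod_restrict]
    exact hG.comp_fst _
  refine hm.of_le (hm.aestronglyMeasurable.mul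
    (Continuous.aestronglyMeasurable (by fun_prop))) (Eventually.of_forall fun q => ?_)
  rw [norm_mul]
  refine mul_le_of_le_one_right (norm_nonneg _) ?_
  rw [Real.norm_eq_abs]
  exact Real.abs_sin_le_one _

lemma ser {Y : ℝ} (hY : 0 < Y) (G : ℝ → ℝ) (t : ℝ) (q : ℝ × ℝ) :
    ∑' p : ℕ × ℕ, bc Y Y (fun q => G q.1 * Real.sin (kap Y 0 * q.2)) p.1 p.2 *
      Real.exp (-((kap Y p.1 ^ 2 + kap Y p.2 ^ 2) * t)) *
      (kap Y p.1 * Real.cos (kap Y p.1 * q.1) * Real.sin (kap Y p.2 * q.2)) =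
    (∑' k : ℕ, sc Y G k * Real.exp (-(kap Y k ^ 2 * t)) *
      (kap Y k * Real.cos (kap Y k * q.1))) *
      (Real.exp (-(kap Y 0 ^ 2 * t)) * Real.sin (kap Y 0 * q.2)) := by
  have hinj : Function.Injective (fun k : ℕ => ((k, 0) : ℕ × ℕ)) := by
    intro a b hab
    exact (Prod.mk.inj hab).1
  rw [← hinj.tsum_eq (f := fun p : ℕ × ℕ =>
      bc Y Y (fun q => G q.1 * Real.sin (kap Y 0 * q.2)) p.1 p.2 *
      Real.exp (-((kap Y p.1 ^ 2 + kap Y p.2 ^ 2) * t)) *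
      (kap Y p.1 * Real.cos (kap Y p.1 * q.1) * Real.sin (kap Y p.2 * q.2))), ← tsum_mul_right]
  · refine tsum_congr fun k => ?_
    show bc Y Y (fun q => G q.1 * Real.sin (kap Y 0 * q.2)) k 0 *
      Real.exp (-((kap Y k ^ 2 + kap Y 0 ^ 2) * t)) *
      (kap Y k * Real.cos (kap Y k * q.1) * Real.sin (kap Y 0 * q.2)) = _
    rw [bc_sep hY, if_pos rfl, show -((kap Y k ^ 2 + kap Y 0 ^ 2) * t) =
      -(kap Y k ^ 2 * t) + -(kap Y 0 ^ 2 * t) by ring, Real.exp_add]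
    ring
  · rintro ⟨k, n⟩ hp
    by_cases hn : n = 0
    · exact ⟨k, by rw [hn]⟩
    · exfalso
      apply hp
      show bc Y Y (fun q => G q.1 * Real.sin (kap Y 0 * q.2)) k n * _ * _ = 0
      rw [bc_sep hY, if_neg hn, zero_mul, zero_mul]

lemma enorm_sq (x : ℝ) : ‖x‖ₑ ^ 2 = ENNReal.ofReal (x ^ 2) := by
  rw [← ofReal_norm_eq_enorm, ← ENNReal.ofReal_pow (norm_nonneg _), Real.norm_eq_abs, sq_abs]

/-- the constant -/
lemma cst {Y : ℝ} (hY : 0 < Y) (e : ℝ) (he : 0 < e) :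
    (∫⁻ y in Ioo 0 Y, ‖e * Real.sin (kap Y 0 * y)‖ₑ ^ 2) ≠ 0 ∧
    (∫⁻ y in Ioo 0 Y, ‖e * Real.sin (kap Y 0 * y)‖ₑ ^ 2) ≠ ⊤ := by
  have h1 : (∫⁻ y in Ioo 0 Y, ‖e * Real.sin (kap Y 0 * y)‖ₑ ^ 2) =
      ENNReal.ofReal (e ^ 2 * (Y / 2)) := by
    have h2 : ∫ y in Ioo 0 Y, (e * Real.sin (kap Y 0 * y)) ^ 2 = e ^ 2 * (Y / 2) := by
      have h3 := Pool.Agent.H74.OD.T.INI.orth1 hY 0 0
      rw [if_pos rfl] at h3
      rw [← h3, ← integral_const_mul]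
      refine integral_congr_ae (Eventually.of_forall fun y => ?_)
      show (e * Real.sin (kap Y 0 * y)) ^ 2 = e ^ 2 * (Real.sin (kap Y 0 * y) * Real.sin (kap Y 0 * y))
      ring
    rw [← h2, ofReal_integral_eq_lintegral_ofReal]
    · refine lintegral_congr fun y => ?_
      rw [enorm_sq]
    · exact ((Continuous.integrableOn_Icc (a := 0) (b := Y) (by fun_prop)).mono_set
        Ioo_subset_Icc_self)
    · exact Eventually.of_forall fun y => sq_nonneg _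
  rw [h1]
  refine ⟨?_, ENNReal.ofReal_ne_top⟩
  have : 0 < e ^ 2 * (Y / 2) := by positivity
  exact (ENNReal.ofReal_pos.2 this).ne'

lemma key {Y : ℝ} (F S S' : ℝ → ℝ) (hS : Continuous S') (h : ∀ y, ‖S' y‖ₑ ≤ ‖S y‖ₑ) :
    (∫⁻ y in Ioo 0 Y, ‖F y‖ₑ ^ 2) * (∫⁻ y in Ioo 0 Y, ‖S' y‖ₑ ^ 2) ≤
      ∫⁻ q in Rec Y Y, ‖F q.1 * S q.2‖ₑ ^ 2 := by
  obtain ⟨g, hgm, hgle, hg⟩ := exists_measurable_le_lintegral_eq (volume.restrict (Ioo 0 Y))
    (fun y => ‖F y‖ₑ ^ 2)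
  rw [hg]
  unfold Rec
  rw [Measure.volume_eq_prod, ← Measure.prod_restrict, ← lintegral_prod_mul hgm.aemeasurable
    (Measurable.aemeasurable (by fun_prop))]
  refine lintegral_mono fun q => ?_
  rw [enorm_mul, mul_pow]
  exact mul_le_mul' (hgle q.1) (pow_le_pow_left' (h q.2) 2)

theorem main (h : S_DIS) : S_DIS1 := by
  intro Y G hY hG
  have h1 := h Y Y (fun q => G q.1 * Real.sin (kap Y 0 * q.2)) hY hY (memv hG)
  have he : 0 < Real.exp (-(kap Y 0 ^ 2)) := Real.exp_pos _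
  obtain ⟨hc0, hc1⟩ := cst hY _ he
  have h2 : (∫⁻ t in Ioc (0 : ℝ) 1, ∫⁻ y in Ioo 0 Y, ‖∑' k : ℕ, sc Y G k *
      Real.exp (-(kap Y k ^ 2 * t)) * (kap Y k * Real.cos (kap Y k * y))‖ₑ ^ 2) *
      (∫⁻ y in Ioo 0 Y, ‖Real.exp (-(kap Y 0 ^ 2)) * Real.sin (kap Y 0 * y)‖ₑ ^ 2) < ⊤ := by
    rw [← lintegral_mul_const' _ _ hc1]
    refine lt_of_le_of_lt ?_ h1
    calc _ ≤ ∫⁻ t in Ioc (0 : ℝ) 1, ∫⁻ q in Rec Y Y,
          (‖∑' p : ℕ × ℕ, bc Y Y (fun q => G q.1 * Real.sin (kap Y 0 * q.2)) p.1 p.2 *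
            Real.exp (-((kap Y p.1 ^ 2 + kap Y p.2 ^ 2) * t)) *
            (kap Y p.1 * Real.cos (kap Y p.1 * q.1) * Real.sin (kap Y p.2 * q.2))‖ₑ ^ 2 +
          ‖∑' p : ℕ × ℕ, bc Y Y (fun q => G q.1 * Real.sin (kap Y 0 * q.2)) p.1 p.2 *
            Real.exp (-((kap Y p.1 ^ 2 + kap Y p.2 ^ 2) * t)) *
            (Real.sin (kap Y p.1 * q.1) * (kap Y p.2 * Real.cos (kap Y p.2 * q.2)))‖ₑ ^ 2) := by
          refine setLIntegral_mono' measurableSet_Ioc fun t ht => ?_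
          refine (key _ (fun y => Real.exp (-(kap Y 0 ^ 2 * t)) * Real.sin (kap Y 0 * y)) _
            (by fun_prop) fun y => ?_).trans (lintegral_mono fun q => ?_)
          · rw [enorm_mul, enorm_mul]
            refine mul_le_mul' ?_ le_rfl
            rw [enorm_le_iff_norm_le, Real.norm_eq_abs, Real.norm_eq_abs, abs_of_pos (Real.exp_pos _),
              abs_of_pos (Real.exp_pos _), Real.exp_le_exp]
            nlinarith [ht.2, sq_nonneg (kap Y 0)]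
          · refine le_trans (le_of_eq ?_) le_self_add
            rw [ser hY]
      _ ≤ _ := lintegral_mono_set Ioc_subset_Ioi_self
  exact (ENNReal.mul_lt_top_iff.1 h2).elim (fun h => h.1) (fun h => h.elim
    (fun h => h ▸ ENNReal.zero_lt_top) fun h => absurd h hc0)

end Pool.Agent.H74.TR.T.DIS
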