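import Pool.Agent.H74.TR.Stm

/-! TR-EQS (helper61): momentum equation, divergence, walls. -/

set_option autoImplicit false

namespace Pool.Agent.H74.TR.T.EQS

open MeasureTheory Filter Topology Set
open Pool.Agent.H74.OD (kap One)
open Pool.Agent.H74.CD (pd)
open Pool.Agent.H74.TR

lemma ell_sum (h : ℝ) (x : Fin 3 → ℝ) : ell h 0 x + ell h 1 x + ell h 2 x = h := by
  simp [ell]
  ring

lemma arg {h : ℝ} (hh : 0 < h) {x : Fin 3 → ℝ} (hx : x ∈ TriC h) (i : Fin 3) : |ell h i x - h / 2| < h := by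
  have h0 := hx 0
  have h1 := hx 1
  have h2 := hx 2
  have s := ell_sum h x
  rw [abs_lt]
  match i with
  | 0 => constructor <;> linarith
  | 1 => constructor <;> linarith
  | 2 => constructor <;> linarith

lemma pd_zero (i : Fin 3) (x : Fin 3 → ℝ) : pd i (fun _ => (0 : ℝ)) x = 0 := by
  simp [pd]

lemma pd_lin (c : ℝ) (k : Fin 3) (x : Fin 3 → ℝ) :
    pd k (fun y => c * y 2) x = c * (Pi.single k (1 : ℝ) : Fin 3 → ℝ) 2 := by
  have h1 : HasFDerivAt (fun y : Fin 3 → ℝ => c * y 2)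
      (c • (ContinuousLinearMap.proj 2 : (Fin 3 → ℝ) →L[ℝ] ℝ)) x :=
    (hasFDerivAt_apply 2 x).const_mul c
  rw [pd, h1.fderiv]
  simp

lemma tri0 (h : ℝ) (z : ℝ → ℝ → ℝ) (t : ℝ) (x : Fin 3 → ℝ) : tri h z t x 0 = 0 := rfl
lemma tri1 (h : ℝ) (z : ℝ → ℝ → ℝ) (t : ℝ) (x : Fin 3 → ℝ) : tri h z t x 1 = 0 := rfl
lemma tri2 (h : ℝ) (z : ℝ → ℝ → ℝ) (t : ℝ) (x : Fin 3 → ℝ) :
    tri h z t x 2 = (∑ i, z t (ell h i x - h / 2)) - z t (-(h / 2)) := rfl

lemma cf_two (j : Fin 3) : cf j 2 = 0 := by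
  match j with
  | 0 => rfl
  | 1 => rfl
  | 2 => rfl

lemma cf_sum (j : Fin 3) : cf j 0 ^ 2 + cf j 1 ^ 2 + cf j 2 ^ 2 = 1 := by
  have h3 : √3 ^ 2 = (3 : ℝ) := Real.sq_sqrt (by norm_num)
  match j with
  | 0 => simp [cf]
  | 1 => simp [cf]; ring_nf; rw [h3]; norm_num
  | 2 => simp [cf]; ring_nf; rw [h3]; norm_num

theorem main (hR : S_REG) : S_EQS := by
  intro h T b z zt zx zxx hh hz hodd
  obtain ⟨-, hsub, -, -, hreg⟩ := hR h T b z zt zx zxx hh hz
  have hh2 : |-(h / 2)| < h := by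
    rw [abs_neg, abs_of_pos (by linarith)]
    linarith
  refine ⟨?_, ?_, ?_, ?_⟩
  · intro t ht x hx k
    obtain ⟨r1, r2, r3⟩ := hreg t ht x (hsub hx)
    rw [pd_lin]
    match k with
    | 0 =>
      have e1 : deriv (fun s => tri h z s x 0) t = 0 := by simp only [tri0, deriv_const]
      rw [e1, Fin.sum_univ_three, Fin.sum_univ_three, tri0, tri1, r1 2 0 (by decide)]
      simp only [tri0, pd_zero]
      simp
    | 1 =>
      have e1 : deriv (fun s => tri h z s x 1) t = 0 := by simp only [tri1, deriv_const]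
      rw [e1, Fin.sum_univ_three, Fin.sum_univ_three, tri0, tri1, r1 2 1 (by decide)]
      simp only [tri1, pd_zero]
      simp
    | 2 =>
      have e1 : HasDerivAt (fun s => tri h z s x 2)
          ((∑ i, zt t (ell h i x - h / 2)) - zt t (-(h / 2))) t := by
        simp only [tri2]
        refine HasDerivAt.sub ?_ (hz.dt t _ ht hh2)
        exact HasDerivAt.fun_sum fun i _ => hz.dt t _ ht (arg hh hx i)
      rw [e1.deriv, Fin.sum_univ_three (f := fun i => tri h z t x i * _), tri0, tri1, r2 2]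
      have e2 : ∑ j, cf j 2 * zx t (ell h j x - h / 2) = 0 :=
        Finset.sum_eq_zero fun j _ => by rw [cf_two, zero_mul]
      rw [e2]
      have e3 : ∑ i, pd i (fun y => pd i (fun v => tri h z t v 2) y) x =
          ∑ j, zxx t (ell h j x - h / 2) := by
        rw [Finset.sum_congr rfl fun i _ => r3 i, Finset.sum_comm]
        refine Finset.sum_congr rfl fun j _ => ?_
        rw [← Finset.sum_mul, Fin.sum_univ_three, cf_sum, one_mul]
      rw [e3, Finset.sum_congr rfl fun j _ => hz.eq t (ell h j x - h / 2) ht (arg hh hx j)]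
      simp
  · intro t ht x hx
    obtain ⟨r1, r2, r3⟩ := hreg t ht x (hsub hx)
    rw [Fin.sum_univ_three, r1 0 0 (by decide), r1 1 1 (by decide), r2 2]
    have e2 : ∑ j, cf j 2 * zx t (ell h j x - h / 2) = 0 :=
      Finset.sum_eq_zero fun j _ => by rw [cf_two, zero_mul]
    rw [e2]
    norm_num
  · rintro t ht x hx ⟨i, hi⟩
    funext k
    match k with
    | 0 => rfl
    | 1 => rfl
    | 2 =>
      rw [tri2, Fin.sum_univ_three]
      have s := ell_sum h x
      have a0 := arg hh hx 0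
      have a1 := arg hh hx 1
      have a2 := arg hh hx 2
      match i, hi with
      | 0, hi =>
        have e : ell h 2 x - h / 2 = -(ell h 1 x - h / 2) := by linarith
        rw [e, hodd t _ ht a1, hi]
        simp
      | 1, hi =>
        have e : ell h 2 x - h / 2 = -(ell h 0 x - h / 2) := by linarith
        rw [e, hodd t _ ht a0, hi]
        simp
      | 2, hi =>
        have e : ell h 1 x - h / 2 = -(ell h 0 x - h / 2) := by linarith
        rw [e, hodd t _ ht a0, hi]
        simp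
  · intro hT t ht x hx
    funext k
    match k with
    | 0 => rfl
    | 1 => rfl
    | 2 =>
      rw [tri2, Finset.sum_eq_zero fun i _ => hz.late t _ ht (arg hh hx i), hz.late t _ ht hh2]
      simp

end Pool.Agent.H74.TR.T.EQS
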