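import Pool.Agent.H74.TR.Stm

/-!
# Project TR, part E of FIN (helper29): the energy is finite
-/

set_option autoImplicit false

namespace Pool.Agent.H74.TR.T.FINE

open MeasureTheory Filter Topology Set
open scoped ENNReal
open Pool.Agent.H74.OD (kap One Rec bc S_INI S_DIS S_ONED)
open Pool.Agent.H74.CD (pd)

theorem fold {a : ℝ} (ha : 0 < a) (g : ℝ → ℝ≥0∞) (hg : ∀ x, g (-x) = g x) :
    ∫⁻ y in Ioo 0 (2 * a), g (y - a) ≤ 2 * ∫⁻ x in Ioo 0 a, g x := by
  have h1 : ∫⁻ y in Ioo a (2 * a), g (y - a) = ∫⁻ x in Ioo 0 a, g x := by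
    rw [← lintegral_indicator measurableSet_Ioo, ← lintegral_indicator measurableSet_Ioo,
      ← lintegral_sub_right_eq_self (fun x => (Ioo 0 a).indicator g x) a]
    refine lintegral_congr fun y => ?_
    by_cases hy : y ∈ Ioo a (2 * a)
    · have hy' : y - a ∈ Ioo 0 a := ⟨by linarith [hy.1], by linarith [hy.2]⟩
      rw [indicator_of_mem hy, indicator_of_mem hy']
    · have hy' : y - a ∉ Ioo 0 a := fun h => hy ⟨by linarith [h.1], by linarith [h.2]⟩
      rw [indicator_of_notMem hy, indicator_of_notMem hy']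
  have h2 : ∫⁻ y in Ioo 0 a, g (y - a) = ∫⁻ x in Ioo 0 a, g x := by
    rw [← lintegral_indicator measurableSet_Ioo, ← lintegral_indicator measurableSet_Ioo,
      ← lintegral_sub_left_eq_self (fun x => (Ioo 0 a).indicator g x) a]
    refine lintegral_congr fun y => ?_
    by_cases hy : y ∈ Ioo 0 a
    · have hy' : a - y ∈ Ioo 0 a := ⟨by linarith [hy.2], by linarith [hy.1]⟩
      rw [indicator_of_mem hy, indicator_of_mem hy', ← hg, neg_sub]
    · have hy' : a - y ∉ Ioo 0 a := fun h => hy ⟨by linarith [h.2], by linarith [h.1]⟩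
      rw [indicator_of_notMem hy, indicator_of_notMem hy']
  have h3 : Ioo 0 (2 * a) ⊆ Ioc 0 a ∪ Ioo a (2 * a) := by
    intro y hy
    rcases le_or_gt y a with h | h
    · exact Or.inl ⟨hy.1, h⟩
    · exact Or.inr ⟨h, hy.2⟩
  calc ∫⁻ y in Ioo 0 (2 * a), g (y - a)
      ≤ ∫⁻ y in Ioc 0 a ∪ Ioo a (2 * a), g (y - a) := lintegral_mono_set h3
    _ ≤ (∫⁻ y in Ioc 0 a, g (y - a)) + ∫⁻ y in Ioo a (2 * a), g (y - a) :=
        lintegral_union_le _ _ _
    _ = (∫⁻ y in Ioo 0 a, g (y - a)) + ∫⁻ y in Ioo a (2 * a), g (y - a) := by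
        rw [Measure.restrict_congr_set (Ioo_ae_eq_Ioc (a := (0 : ℝ)) (b := a))]
    _ = 2 * ∫⁻ x in Ioo 0 a, g x := by rw [h1, h2, two_mul]

theorem enorm_sq (r : ℝ) : ‖r‖ₑ ^ 2 = ENNReal.ofReal (r ^ 2) := by
  rw [Real.enorm_eq_ofReal_abs, ← ENNReal.ofReal_pow (abs_nonneg _), sq_abs]

theorem pd_zero (i : Fin 3) (x : Fin 3 → ℝ) : pd i (fun _ => (0 : ℝ)) x = 0 := by
  simp [pd]

theorem tri_of_ne (h : ℝ) (z : ℝ → ℝ → ℝ) (t : ℝ) (x : Fin 3 → ℝ) (k : Fin 3) (hk : k ≠ 2) :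
    tri h z t x k = 0 := by
  fin_cases k
  · rfl
  · rfl
  · exact absurd rfl hk

/-- the sum of the squares of the derivatives -/
theorem pt_le (a : Fin 3 → ℝ) :
    ∑ i, ‖∑ j, cf j i * a j‖ₑ ^ 2 ≤ 2 * ∑ j, ‖a j‖ₑ ^ 2 := by
  simp only [enorm_sq]
  rw [← ENNReal.ofReal_sum_of_nonneg (fun _ _ => sq_nonneg _),
    ← ENNReal.ofReal_sum_of_nonneg (fun _ _ => sq_nonneg _),
    ← ENNReal.ofReal_ofNat 2, ← ENNReal.ofReal_mul (by norm_num)]
  refine ENNReal.ofReal_le_ofReal ?_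
  have h3 : √3 * √3 = 3 := Real.mul_self_sqrt (by norm_num)
  have e0 : ∑ j, cf j 0 * a j = √3 / 2 * (a 1 - a 2) := by
    rw [Fin.sum_univ_three]
    simp [cf]
    ring
  have e1 : ∑ j, cf j 1 * a j = a 0 - a 1 / 2 - a 2 / 2 := by
    rw [Fin.sum_univ_three]
    simp [cf]
    ring
  have e2 : ∑ j, cf j 2 * a j = 0 := by
    rw [Fin.sum_univ_three]
    simp [cf]
  have e : ∑ i, (∑ j, cf j i * a j) ^ 2 = (∑ j, cf j 0 * a j) ^ 2 + (∑ j, cf j 1 * a j) ^ 2 +
      (∑ j, cf j 2 * a j) ^ 2 := Fin.sum_univ_three _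
  rw [e, e0, e1, e2, Fin.sum_univ_three]
  show _ ≤ (2 : ℝ) * _
  have h4 : (√3 / 2 * (a 1 - a 2)) ^ 2 = 3 / 4 * (a 1 - a 2) ^ 2 := by
    have : (√3 / 2 * (a 1 - a 2)) ^ 2 = √3 * √3 / 4 * (a 1 - a 2) ^ 2 := by ring
    rw [this, h3]
  rw [h4]
  nlinarith [sq_nonneg (a 0 + a 1 + a 2), sq_nonneg (a 0), sq_nonneg (a 1), sq_nonneg (a 2)]

theorem ell_cont (h : ℝ) (i : Fin 3) : Continuous (ell h i) := by
  fin_cases i
  · show Continuous fun x : Fin 3 → ℝ => x 1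
    fun_prop
  · show Continuous fun x : Fin 3 → ℝ => (√3 * x 0 - x 1) / 2
    fun_prop
  · show Continuous fun x : Fin 3 → ℝ => h - (√3 * x 0 + x 1) / 2
    fun_prop

theorem triD_meas (h c : ℝ) : MeasurableSet (TriD h c) := by
  have h1 : IsOpen (TriD h c) := by
    have e : TriD h c = (⋂ i, {x | 0 < ell h i x}) ∩ {x | |x 2| < c} := by
      ext x
      simp [TriD]
    rw [e]
    exact (isOpen_iInter_of_finite fun i => isOpen_lt continuous_const (ell_cont h i)).inter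
      (isOpen_lt (continuous_abs.comp (continuous_apply 2)) continuous_const)
  exact h1.measurableSet

theorem late_x {h T : ℝ} {b : ℕ → ℝ} {z zt zx zxx : ℝ → ℝ → ℝ} (h2 : One h T b z zt zx zxx)
    {t x : ℝ} (ht0 : 0 < t) (hT : T ≤ t) (hx : |x| < h) : zx t x = 0 := by
  have h1 := h2.dx t x ht0 hx
  have h3 : (fun s => z t s) =ᶠ[𝓝 x] fun _ => 0 := by
    have : {s : ℝ | |s| < h} ∈ 𝓝 x := (isOpen_lt continuous_abs continuous_const).mem_nhds hx
    filter_upwards [this] with s hs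
    exact h2.late t s hT hs
  exact h1.unique ((hasDerivAt_const x (0 : ℝ)).congr_of_eventuallyEq h3)

theorem bdd {h τ T : ℝ} (hh : 0 < h) (hτ : 0 < τ) {f : ℝ → ℝ → ℝ}
    (hf : ContinuousOn (fun q : ℝ × ℝ => f q.1 q.2) {q | 0 < q.1 ∧ |q.2| < h}) :
    ∃ C : ℝ, ∀ t ∈ Icc τ T, ∀ x ∈ Icc (-(h / 2)) (h / 2), |f t x| ≤ C := by
  have hK : IsCompact (Icc τ T ×ˢ Icc (-(h / 2)) (h / 2)) := isCompact_Icc.prod isCompact_Icc
  obtain ⟨C, hC⟩ := hK.exists_bound_of_continuousOn (hf.mono (by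
    rintro ⟨t, x⟩ ⟨ht, hx⟩
    refine ⟨?_, ?_⟩
    · have := ht.1
      change 0 < t
      simp only at this
      linarith
    · change |x| < h
      have h1 := hx.1
      have h2 := hx.2
      simp only at h1 h2
      rw [abs_lt]
      constructor <;> linarith))
  exact ⟨C, fun t ht x hx => hC (t, x) ⟨ht, hx⟩⟩

/-- the series -/
noncomputable def FX (h : ℝ) (G : ℝ → ℝ) (t x : ℝ) : ℝ := ∑' k : ℕ, sc (h / 2) G k *
  Real.exp (-(kap (h / 2) k ^ 2 * t)) * (kap (h / 2) k * Real.cos (kap (h / 2) k * x))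

theorem FX_neg (h : ℝ) (G : ℝ → ℝ) (t x : ℝ) : FX h G t (-x) = FX h G t x := by
  unfold FX
  refine tsum_congr fun k => ?_
  rw [mul_neg, Real.cos_neg]

theorem energy (hd : S_DIS1) (hc : S_CHV) (hr : S_REG) : ∀ (h T : ℝ) (G : ℝ → ℝ) (b' : ℕ → ℝ)
    (z zt zx zxx : ℝ → ℝ → ℝ), 0 < h → 0 < T → MemLp G 2 (volume.restrict (Ioo 0 (h / 2))) →
    One h T b' z zt zx zxx → (∀ t x, 0 < t → |x| < h → z t (-x) = -z t x) →
    (∀ t x, 0 < t → t ≤ T / 2 → |x| < h →
      zx t x = ∑' k : ℕ, sc (h / 2) G k * Real.exp (-(kap (h / 2) k ^ 2 * t)) *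
        (kap (h / 2) k * Real.cos (kap (h / 2) k * x))) →
    ∀ c, 0 < c → ∫⁻ t in Ioi (0 : ℝ), ∫⁻ x in TriD h c,
      ∑ i, ∑ k, ‖pd i (fun y => tri h z t y k) x‖ₑ ^ 2 < ⊤ := by
  intro h T G b' z zt zx zxx hh hT hG h2 _ hser c hc0
  obtain ⟨C, hCt, hC⟩ := hc h c hh hc0
  obtain ⟨-, hTN, -, -, hreg⟩ := hr h T b' z zt zx zxx hh h2
  obtain ⟨τ, hτ⟩ : ∃ τ : ℝ, τ = min (T / 2) 1 := ⟨_, rfl⟩
  have hτ0 : 0 < τ := by rw [hτ]; exact lt_min (by linarith) one_pos
  have hτ1 : τ ≤ T / 2 := by rw [hτ]; exact min_le_left _ _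
  have hτ2 : τ ≤ 1 := by rw [hτ]; exact min_le_right _ _
  obtain ⟨C1, hC1⟩ := bdd (T := T) hh hτ0 h2.cx
  obtain ⟨D, hD0⟩ : ∃ D : ℝ → ℝ≥0∞, D = fun t => ∫⁻ y in Ioo 0 (h / 2), ‖FX h G t y‖ₑ ^ 2 :=
    ⟨_, rfl⟩
  have hD : ∫⁻ t in Ioc (0 : ℝ) 1, D t < ⊤ := by
    rw [hD0]
    exact hd (h / 2) G (by linarith) hG
  obtain ⟨K, hK0⟩ : ∃ K : ℝ≥0∞, K = ENNReal.ofReal C1 ^ 2 * volume (Ioo 0 h) := ⟨_, rfl⟩
  have hK : K < ⊤ := by
    rw [hK0]
    refine ENNReal.mul_lt_top (ENNReal.pow_lt_top ENNReal.ofReal_lt_top) ?_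
    rw [Real.volume_Ioo]
    exact ENNReal.ofReal_lt_top
  have hsub : ∀ y ∈ Ioo 0 h, |y - h / 2| < h := fun y hy => by
    rw [abs_lt]
    constructor <;> linarith [hy.1, hy.2]
  -- the one-dimensional integral
  have hI : ∀ t ∈ Ioi (0 : ℝ), ∫⁻ y in Ioo 0 h, ‖zx t (y - h / 2)‖ₑ ^ 2 ≤
      (Ioc (0 : ℝ) 1).indicator (fun t => 2 * D t) t + (Icc τ T).indicator (fun _ => K) t := by
    intro t ht0
    have ht0' : 0 < t := ht0
    rcases le_or_gt t τ with h4 | h4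
    · refine le_trans ?_ le_self_add
      rw [indicator_of_mem (show t ∈ Ioc (0 : ℝ) 1 from ⟨ht0', h4.trans hτ2⟩), hD0]
      have e1 : ∫⁻ y in Ioo 0 h, ‖zx t (y - h / 2)‖ₑ ^ 2 =
          ∫⁻ y in Ioo 0 (2 * (h / 2)), (fun x => ‖FX h G t x‖ₑ ^ 2) (y - h / 2) := by
        rw [mul_div_cancel₀ h (two_ne_zero' ℝ)]
        refine setLIntegral_congr_fun measurableSet_Ioo fun y hy => ?_
        have e2 : zx t (y - h / 2) = FX h G t (y - h / 2) :=
          hser t _ ht0' (h4.trans hτ1) (hsub y hy)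
        simp only [e2]
      rw [e1]
      exact fold (by linarith) _ (fun x => by simp only [FX_neg])
    · rcases le_or_gt t T with h5 | h5
      · refine le_trans ?_ le_add_self
        rw [indicator_of_mem (show t ∈ Icc τ T from ⟨h4.le, h5⟩), hK0, ← setLIntegral_const]
        refine setLIntegral_mono' measurableSet_Ioo fun y hy => ?_
        have h6 : ‖zx t (y - h / 2)‖ₑ ≤ ENNReal.ofReal C1 := by
          rw [Real.enorm_eq_ofReal_abs]
          exact ENNReal.ofReal_le_ofReal (hC1 t ⟨h4.le, h5⟩ _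
            ⟨by linarith [hy.1], by linarith [hy.2]⟩)
        exact pow_le_pow_left' h6 2
      · have h6 : ∫⁻ y in Ioo 0 h, ‖zx t (y - h / 2)‖ₑ ^ 2 = 0 := by
          rw [setLIntegral_congr_fun (g := fun _ => 0) measurableSet_Ioo fun y hy => ?_]
          · simp
          · have e1 := late_x h2 ht0' h5.le (hsub y hy)
            simp only [e1]
            simp
        exact h6.le.trans bot_le
  have hsec : ∀ t, 0 < t → ContinuousOn (fun s => zx t s) {s : ℝ | |s| < h} := fun t ht =>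
    h2.cx.comp (f := fun s : ℝ => (t, s)) (Continuous.continuousOn (by fun_prop))
      (fun s hs => ⟨ht, hs⟩)
  have hE : ∀ t ∈ Ioi (0 : ℝ), ∫⁻ x in TriD h c,
      ∑ i, ∑ k, ‖pd i (fun y => tri h z t y k) x‖ₑ ^ 2 ≤
        (2 * (3 * C)) * ((Ioc (0 : ℝ) 1).indicator (fun t => 2 * D t) t +
          (Icc τ T).indicator (fun _ => K) t) := by
    intro t ht0
    have ht0' : 0 < t := ht0
    have hmem : ∀ x ∈ TriD h c, x ∈ Nb h := fun x hx => hTN fun i => (hx.1 i).le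
    have e1 : ∫⁻ x in TriD h c, ∑ i, ∑ k, ‖pd i (fun y => tri h z t y k) x‖ₑ ^ 2 ≤
        ∫⁻ x in TriD h c, 2 * ∑ j, ‖zx t (ell h j x - h / 2)‖ₑ ^ 2 := by
      refine setLIntegral_mono' (triD_meas h c) fun x hx => ?_
      obtain ⟨r1, r2, -⟩ := hreg t ht0' x (hmem x hx)
      have e2 : ∑ i, ∑ k, ‖pd i (fun y => tri h z t y k) x‖ₑ ^ 2 =
          ∑ i, ‖∑ j, cf j i * zx t (ell h j x - h / 2)‖ₑ ^ 2 := by
        refine Finset.sum_congr rfl fun i _ => ?_
        rw [Fin.sum_univ_three, r1 i 0 (by decide), r1 i 1 (by decide), r2 i]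
        simp
      rw [e2]
      exact pt_le fun j => zx t (ell h j x - h / 2)
    refine e1.trans ?_
    have hm : ∀ j : Fin 3, AEMeasurable (fun x => ‖zx t (ell h j x - h / 2)‖ₑ ^ 2)
        (volume.restrict (TriD h c)) := by
      intro j
      have hcont : ContinuousOn (fun x => zx t (ell h j x - h / 2)) (TriD h c) :=
        (hsec t ht0').comp (((ell_cont h j).sub continuous_const).continuousOn)
          (fun x hx => (hmem x hx) j)
      exact (hcont.aemeasurable (triD_meas h c)).enorm.pow_const 2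
    rw [lintegral_const_mul' _ _ (by norm_num), lintegral_finsetSum' _ (fun j _ => hm j), mul_assoc]
    refine mul_le_mul_right ?_ _
    have hF : AEMeasurable (fun y => ‖zx t (y - h / 2)‖ₑ ^ 2) (volume.restrict (Ioo 0 h)) := by
      have hcont : ContinuousOn (fun y => zx t (y - h / 2)) (Ioo 0 h) :=
        (hsec t ht0').comp ((continuous_id.sub continuous_const).continuousOn)
          (fun y hy => hsub y hy)
      exact (hcont.aemeasurable measurableSet_Ioo).enorm.pow_const 2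
    calc ∑ j, ∫⁻ x in TriD h c, ‖zx t (ell h j x - h / 2)‖ₑ ^ 2
        ≤ ∑ _j : Fin 3, C * ((Ioc (0 : ℝ) 1).indicator (fun t => 2 * D t) t +
            (Icc τ T).indicator (fun _ => K) t) := by
          refine Finset.sum_le_sum fun j _ => ?_
          refine (hC j (fun y => ‖zx t (y - h / 2)‖ₑ ^ 2) hF).trans ?_
          exact mul_le_mul_right (hI t ht0) _
      _ = _ := by
          rw [Finset.sum_const, Finset.card_univ, Fintype.card_fin, nsmul_eq_mul, mul_assoc]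
          norm_num
  have hM : (2 * (3 * C) : ℝ≥0∞) ≠ ⊤ :=
    ENNReal.mul_ne_top (by norm_num) (ENNReal.mul_ne_top (by norm_num) hCt)
  calc ∫⁻ t in Ioi (0 : ℝ), ∫⁻ x in TriD h c,
        ∑ i, ∑ k, ‖pd i (fun y => tri h z t y k) x‖ₑ ^ 2
      ≤ ∫⁻ t in Ioi (0 : ℝ), (2 * (3 * C)) * ((Ioc (0 : ℝ) 1).indicator (fun t => 2 * D t) t +
          (Icc τ T).indicator (fun _ => K) t) := setLIntegral_mono' measurableSet_Ioi hE
    _ = (2 * (3 * C)) * ∫⁻ t in Ioi (0 : ℝ), ((Ioc (0 : ℝ) 1).indicator (fun t => 2 * D t) t +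
          (Icc τ T).indicator (fun _ => K) t) := lintegral_const_mul' _ _ hM
    _ = (2 * (3 * C)) * ((∫⁻ t in Ioi (0 : ℝ), (Ioc (0 : ℝ) 1).indicator (fun t => 2 * D t) t) +
          ∫⁻ t in Ioi (0 : ℝ), (Icc τ T).indicator (fun _ => K) t) := by
        rw [lintegral_add_right _ (measurable_const.indicator measurableSet_Icc)]
    _ < ⊤ := by
        refine ENNReal.mul_lt_top (lt_top_iff_ne_top.2 hM) (ENNReal.add_lt_top.2 ⟨?_, ?_⟩)
        · refine (setLIntegral_le_lintegral _ _).trans_lt ?_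
          rw [lintegral_indicator measurableSet_Ioc, lintegral_const_mul' _ _ (by norm_num)]
          exact ENNReal.mul_lt_top (by norm_num) hD
        · refine (setLIntegral_le_lintegral _ _).trans_lt ?_
          rw [lintegral_indicator_const measurableSet_Icc]
          exact ENNReal.mul_lt_top hK isCompact_Icc.measure_lt_top

end Pool.Agent.H74.TR.T.FINE
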