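import Pool.Agent.H74.TR.T.FINI
import Pool.Agent.H74.TR.T.FINE

/-! # Project TR, FIN: the assembly (helper40) -/

set_option autoImplicit false

namespace Pool.Agent.H74.TR.T.FIN

open MeasureTheory Filter Topology Set
open scoped ENNReal
open Pool.Agent.H74.OD (kap One)
open Pool.Agent.H74.CD (pd)
open Pool.Agent.H74.TR.T.FINI (ell_cont ell_sum)

theorem tri_of_ne (h : ℝ) (z : ℝ → ℝ → ℝ) (t : ℝ) (x : Fin 3 → ℝ) (k : Fin 3) (hk : k ≠ 2) :
    tri h z t x k = 0 := by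
  fin_cases k
  · rfl
  · rfl
  · exact absurd rfl hk

theorem pd_zero (i : Fin 3) (x : Fin 3 → ℝ) : pd i (fun _ => (0 : ℝ)) x = 0 := by
  simp [pd]

theorem main (hs : S_SPR) (hi : S_INI1) (hd : S_DIS1) (hb : S_BD1) (hc : S_CHV) (hr : S_REG)
    (he : S_EQS) : S_FIN := by
  intro h T G hh hT hodd hG
  obtain ⟨M, hM, hbM⟩ := hb (h / 2) G (by linarith) hG
  obtain ⟨b', z, zt, zx, zxx, h1, hzo, hze, hzxe⟩ := hs h T M hh hT hM (sc (h / 2) G) hbM
  obtain ⟨hN1, hN2, hR1, hR2, hR3⟩ := hr h T b' z zt zx zxx hh h1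
  obtain ⟨hE1, hE2, hE3, hE4⟩ := he h T b' z zt zx zxx hh h1 hzo
  refine ⟨tri h z, fun t x => zt t (-(h / 2)) * x 2, ?_⟩
  refine { regular := ?_, pressure := ?_, axial := ?_, momentum := ?_, div := ?_, wall := ?_,
           rest := ?_, initial := ?_, energy := ?_ }
  · refine ⟨Nb h, hN1, hN2, hR1, hR2, ?_⟩
    intro i k
    by_cases hk : k = 2
    · subst hk
      have hcont : ContinuousOn (fun q : ℝ × (Fin 3 → ℝ) =>
          ∑ j, cf j i ^ 2 * zxx q.1 (ell h j q.2 - h / 2)) (Ioi 0 ×ˢ Nb h) := by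
        refine continuousOn_finset_sum _ fun j _ => ContinuousOn.mul continuousOn_const ?_
        have hmap : ContinuousOn (fun q : ℝ × (Fin 3 → ℝ) =>
            ((q.1, ell h j q.2 - h / 2) : ℝ × ℝ)) (Ioi 0 ×ˢ Nb h) := by
          apply Continuous.continuousOn
          exact continuous_fst.prodMk (((ell_cont h j).comp continuous_snd).sub continuous_const)
        exact h1.cxx.comp hmap (fun q hq => ⟨hq.1, hq.2 j⟩)
      refine hcont.congr fun q hq => ?_
      exact (hR3 q.1 hq.1 q.2 hq.2).2.2 i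
    · have e : (fun q : ℝ × (Fin 3 → ℝ) => pd i (fun y => pd i (fun v => tri h z q.1 v k) y) q.2) =
          fun _ => 0 := by
        funext q
        simp only [tri_of_ne h z _ _ k hk, pd_zero]
      rw [e]
      exact continuousOn_const
  · refine ⟨fun t _ => ?_, ?_⟩
    · show Differentiable ℝ (fun x : Fin 3 → ℝ => zt t (-(h / 2)) * x 2)
      fun_prop
    · have hh2 : |(-(h / 2))| < h := by
        rw [abs_neg, abs_of_pos (by linarith)]
        linarith
      have h2 : ContinuousOn (fun q : ℝ × (Fin 3 → ℝ) => zxx q.1 (-(h / 2)))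
          (Ioi 0 ×ˢ (univ : Set (Fin 3 → ℝ))) :=
        h1.cxx.comp (f := fun q : ℝ × (Fin 3 → ℝ) => ((q.1, -(h / 2)) : ℝ × ℝ))
          (Continuous.continuousOn (by fun_prop)) (fun q hq => ⟨hq.1, hh2⟩)
      have h3 : ContinuousOn (fun q : ℝ × (Fin 3 → ℝ) => zxx q.1 (-(h / 2)) * q.2 2)
          (Ioi 0 ×ˢ (univ : Set (Fin 3 → ℝ))) :=
        h2.mul (Continuous.continuousOn (by fun_prop))
      refine h3.congr fun q hq => ?_
      show zt q.1 (-(h / 2)) * q.2 2 = zxx q.1 (-(h / 2)) * q.2 2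
      rw [h1.eq q.1 _ hq.1 hh2]
  · intro t x
    exact ⟨rfl, rfl⟩
  · exact hE1
  · exact hE2
  · exact hE3
  · exact hE4 hT
  · exact Pool.Agent.H74.TR.T.FINI.initial hi hc h T G b' z zt zx zxx hh hT hodd hG h1 hzo hze
  · exact Pool.Agent.H74.TR.T.FINE.energy hd hc hr h T G b' z zt zx zxx hh hT hG h1 hzo hzxe

end Pool.Agent.H74.TR.T.FIN
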