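import Pool.Agent.H74.TR.Stm

/-! # Project TR, first part of FIN: the initial trace and regularity (helper40) -/

set_option autoImplicit false

namespace Pool.Agent.H74.TR.T.FINI

open MeasureTheory Filter Topology Set
open scoped ENNReal
open Pool.Agent.H74.OD (kap One)
open Pool.Agent.H74.CD (pd)

theorem ell_cont (h : ℝ) (i : Fin 3) : Continuous (ell h i) := by
  fin_cases i
  · show Continuous (fun x : Fin 3 → ℝ => x 1)
    fun_prop
  · show Continuous (fun x : Fin 3 → ℝ => (√3 * x 0 - x 1) / 2)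
    fun_prop
  · show Continuous (fun x : Fin 3 → ℝ => h - (√3 * x 0 + x 1) / 2)
    fun_prop

theorem ell_sum (h : ℝ) (x : Fin 3 → ℝ) : ell h 0 x + ell h 1 x + ell h 2 x = h := by
  show x 1 + (√3 * x 0 - x 1) / 2 + (h - (√3 * x 0 + x 1) / 2) = h
  ring

theorem triD_open (h c : ℝ) : IsOpen (TriD h c) := by
  have e : TriD h c = (⋂ i, {x | 0 < ell h i x}) ∩ {x | |x 2| < c} := by
    ext x
    simp [TriD]
  rw [e]
  exact (isOpen_iInter_of_finite fun i => isOpen_lt continuous_const (ell_cont h i)).inter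
    (isOpen_lt (continuous_abs.comp (continuous_apply 2)) continuous_const)

theorem ell_lt {h c : ℝ} {x : Fin 3 → ℝ} (hx : x ∈ TriD h c) (i : Fin 3) : |ell h i x - h / 2| < h / 2 := by
  have h0 := hx.1 0
  have h1 := hx.1 1
  have h2 := hx.1 2
  have hs := ell_sum h x
  rw [abs_lt]
  fin_cases i
  · show -(h / 2) < ell h 0 x - h / 2 ∧ ell h 0 x - h / 2 < h / 2
    constructor <;> linarith
  · show -(h / 2) < ell h 1 x - h / 2 ∧ ell h 1 x - h / 2 < h / 2
    constructor <;> linarith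
  · show -(h / 2) < ell h 2 x - h / 2 ∧ ell h 2 x - h / 2 < h / 2
    constructor <;> linarith

theorem sq3 (a b c : ℝ) : ‖a + b + c‖ₑ ^ 2 ≤ 3 * (‖a‖ₑ ^ 2 + ‖b‖ₑ ^ 2 + ‖c‖ₑ ^ 2) := by
  have e : ∀ x : ℝ, ‖x‖ₑ ^ 2 = ENNReal.ofReal (x ^ 2) := by
    intro x
    rw [Real.enorm_eq_ofReal_abs, ← ENNReal.ofReal_pow (abs_nonneg _), sq_abs]
  rw [e, e, e, e, ← ENNReal.ofReal_add (by positivity) (by positivity),
    ← ENNReal.ofReal_add (by positivity) (by positivity)]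
  have h3 : (3 : ℝ≥0∞) = ENNReal.ofReal 3 := by simp
  rw [h3, ← ENNReal.ofReal_mul (by norm_num)]
  refine ENNReal.ofReal_le_ofReal ?_
  nlinarith [sq_nonneg (a - b), sq_nonneg (b - c), sq_nonneg (a - c)]

/-- a measurable majorant with the same integral -/
theorem maj {μ : Measure ℝ} {F : ℝ → ℝ≥0∞} (hF : AEMeasurable F μ) :
    ∃ F₂ : ℝ → ℝ≥0∞, Measurable F₂ ∧ (∀ y, F y ≤ F₂ y) ∧ ∫⁻ y, F₂ y ∂μ = ∫⁻ y, F y ∂μ := by
  classical
  have hnull : μ {y | F y ≠ hF.mk F y} = 0 := hF.ae_eq_mk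
  set N := toMeasurable μ {y | F y ≠ hF.mk F y} with hN
  have hNm : MeasurableSet N := measurableSet_toMeasurable _ _
  have hN0 : μ N = 0 := by rw [hN, measure_toMeasurable, hnull]
  refine ⟨fun y => hF.mk F y + N.indicator (fun _ => ⊤) y, ?_, ?_, ?_⟩
  · exact hF.measurable_mk.add (measurable_const.indicator hNm)
  · intro y
    by_cases hy : y ∈ N
    · simp [hy]
    · have : F y = hF.mk F y := by
        by_contra hne
        exact hy (subset_toMeasurable _ _ hne)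
      rw [this]
      exact le_self_add
  · rw [lintegral_add_left hF.measurable_mk, lintegral_indicator hNm, Measure.restrict_eq_zero.2 hN0,
      lintegral_zero_measure, add_zero]
    exact (lintegral_congr_ae hF.ae_eq_mk).symm

/-- symmetric interval -/
theorem symm_int (a : ℝ) (E : ℝ → ℝ≥0∞) :
    ∫⁻ y in Ioo 0 (2 * a), E |y - a| ≤ 2 * ∫⁻ s in Ioo 0 a, E s := by
  have e1 : ∫⁻ y in Ioo 0 (2 * a), E |y - a| = ∫⁻ s in Ioo (-a) a, E |s| := by
    rw [← lintegral_indicator measurableSet_Ioo, ← lintegral_indicator measurableSet_Ioo,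
      ← lintegral_sub_right_eq_self (fun s => (Ioo (-a) a).indicator (fun s => E |s|) s) a]
    refine lintegral_congr fun y => ?_
    by_cases hy : y ∈ Ioo 0 (2 * a)
    · have hy' : y - a ∈ Ioo (-a) a := ⟨by linarith [hy.1], by linarith [hy.2]⟩
      rw [indicator_of_mem hy, indicator_of_mem hy']
    · have hy' : y - a ∉ Ioo (-a) a := fun hc => hy ⟨by linarith [hc.1], by linarith [hc.2]⟩
      rw [indicator_of_notMem hy, indicator_of_notMem hy']
  have e2 : ∫⁻ s in Ioo (-a) 0, E |s| = ∫⁻ s in Ioo 0 a, E s := by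
    rw [← lintegral_indicator measurableSet_Ioo, ← lintegral_indicator measurableSet_Ioo,
      ← lintegral_neg_eq_self (fun s => (Ioo (-a) 0).indicator (fun s => E |s|) s)]
    refine lintegral_congr fun y => ?_
    by_cases hy : y ∈ Ioo 0 a
    · have hy' : -y ∈ Ioo (-a) 0 := ⟨by linarith [hy.2], by linarith [hy.1]⟩
      rw [indicator_of_mem hy, indicator_of_mem hy', abs_neg, abs_of_pos hy.1]
    · have hy' : -y ∉ Ioo (-a) 0 := fun hc => hy ⟨by linarith [hc.2], by linarith [hc.1]⟩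
      rw [indicator_of_notMem hy, indicator_of_notMem hy']
  have e3 : ∫⁻ s in Ioo 0 a, E |s| = ∫⁻ s in Ioo 0 a, E s :=
    setLIntegral_congr_fun measurableSet_Ioo fun s hs => by
      show E |s| = E s
      rw [abs_of_pos hs.1]
  have e4 : ∫⁻ s in ({0} : Set ℝ), E |s| = 0 := by
    rw [Measure.restrict_singleton]
    simp
  have hsub : Ioo (-a) a ⊆ Ioo (-a) 0 ∪ ({0} ∪ Ioo 0 a) := by
    intro s hs
    rcases lt_trichotomy s 0 with h | h | h
    · exact Or.inl ⟨hs.1, h⟩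
    · exact Or.inr (Or.inl h)
    · exact Or.inr (Or.inr ⟨h, hs.2⟩)
  calc ∫⁻ y in Ioo 0 (2 * a), E |y - a| = ∫⁻ s in Ioo (-a) a, E |s| := e1
    _ ≤ ∫⁻ s in Ioo (-a) 0 ∪ ({0} ∪ Ioo 0 a), E |s| := lintegral_mono_set hsub
    _ ≤ (∫⁻ s in Ioo (-a) 0, E |s|) + (∫⁻ s in ({0} ∪ Ioo 0 a), E |s|) := lintegral_union_le _ _ _
    _ ≤ (∫⁻ s in Ioo (-a) 0, E |s|) +
        ((∫⁻ s in ({0} : Set ℝ), E |s|) + (∫⁻ s in Ioo 0 a, E |s|)) :=
        add_le_add le_rfl (lintegral_union_le _ _ _)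
    _ = 2 * ∫⁻ s in Ioo 0 a, E s := by rw [e2, e3, e4, zero_add, two_mul]

theorem sin0 {h : ℝ} (hh : 0 < h) (k : ℕ) : Real.sin (kap (h / 2) k * (-(h / 2))) = 0 := by
  have : kap (h / 2) k * (-(h / 2)) = -(((k + 1 : ℕ) : ℝ) * Real.pi) := by
    unfold kap
    push_cast
    field_simp
  rw [this, Real.sin_neg, Real.sin_nat_mul_pi, neg_zero]

theorem initial (hi : S_INI1) (hc : S_CHV) : ∀ (h T : ℝ) (G : ℝ → ℝ) (b' : ℕ → ℝ)
    (z zt zx zxx : ℝ → ℝ → ℝ), 0 < h → 0 < T → (∀ s, G (-s) = -G s) →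
    MemLp G 2 (volume.restrict (Ioo 0 (h / 2))) → One h T b' z zt zx zxx →
    (∀ t x, 0 < t → |x| < h → z t (-x) = -z t x) →
    (∀ t x, 0 < t → t ≤ T / 2 → |x| < h →
      z t x = ∑' k : ℕ, sc (h / 2) G k * Real.exp (-(kap (h / 2) k ^ 2 * t)) *
        Real.sin (kap (h / 2) k * x)) →
    ∀ c, 0 < c → Tendsto (fun t => ∫⁻ x in TriD h c,
      ‖tri h z t x 2 - ∑ i, G (ell h i x - h / 2)‖ₑ ^ 2) (𝓝[>] 0) (𝓝 0) := by
  intro h T G b' z zt zx zxx hh hT hodd hG h1 hzo hze c hc0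
  obtain ⟨C, hC, hC2⟩ := hc h c hh hc0
  have h0 := hi (h / 2) G (by linarith) hG
  have h2 : Tendsto (fun t : ℝ => 18 * C * ∫⁻ y in Ioo 0 (h / 2),
      ‖(∑' k : ℕ, sc (h / 2) G k * Real.exp (-(kap (h / 2) k ^ 2 * t)) *
        Real.sin (kap (h / 2) k * y)) - G y‖ₑ ^ 2) (𝓝[>] 0) (𝓝 0) := by
    have := ENNReal.Tendsto.const_mul (a := 18 * C) h0
      (Or.inr (ENNReal.mul_ne_top (by norm_num) hC))
    rwa [mul_zero] at this
  refine tendsto_of_tendsto_of_tendsto_of_le_of_le' tendsto_const_nhds h2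
    (Eventually.of_forall fun _ => bot_le) ?_
  have hev : ∀ᶠ t in 𝓝[>] (0 : ℝ), t ∈ Ioc 0 (T / 2) := Ioc_mem_nhdsGT (by linarith)
  filter_upwards [hev] with t htt
  -- the difference
  let D : ℝ → ℝ := fun s => z t s - G s
  have hDodd : ∀ s, |s| < h → D (-s) = -D s := by
    intro s hs
    show z t (-s) - G (-s) = -(z t s - G s)
    rw [hzo t s htt.1 hs, hodd]
    ring
  have hDabs : ∀ s, |s| < h → ‖D s‖ₑ ^ 2 = ‖D |s|‖ₑ ^ 2 := by
    intro s hs
    rcases abs_choice s with e | e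
    · rw [e]
    · rw [e, hDodd s hs, enorm_neg]
  have hcz : ContinuousOn (z t) {s : ℝ | |s| < h} :=
    h1.cz.comp (f := fun s : ℝ => (t, s)) (Continuous.continuousOn (by fun_prop))
      (fun s hs => ⟨htt.1, hs⟩)
  have hsub : Ioo 0 (h / 2) ⊆ {s : ℝ | |s| < h} := by
    intro s hs
    show |s| < h
    rw [abs_of_pos hs.1]
    linarith [hs.2]
  have hDm : AEMeasurable (fun s => ‖D s‖ₑ ^ 2) (volume.restrict (Ioo 0 (h / 2))) :=
    ((((hcz.mono hsub).aemeasurable measurableSet_Ioo).sub hG.1.aemeasurable).enorm.pow_const 2)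
  obtain ⟨E, hEm, hE1, hE2⟩ := maj hDm
  have hEabs : Measurable fun y : ℝ => E |y - h / 2| :=
    hEm.comp (continuous_abs.comp (continuous_id.sub continuous_const)).measurable
  have key : ∀ x ∈ TriD h c, ‖tri h z t x 2 - ∑ i, G (ell h i x - h / 2)‖ₑ ^ 2 ≤
      3 * (E |ell h 0 x - h / 2| + E |ell h 1 x - h / 2| + E |ell h 2 x - h / 2|) := by
    intro x hx
    have hz0 : z t (-(h / 2)) = 0 := by
      rw [hze t (-(h / 2)) htt.1 htt.2 (by rw [abs_neg, abs_of_pos (by linarith)]; linarith)]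
      simp only [sin0 hh, mul_zero, tsum_zero]
    have e : tri h z t x 2 - ∑ i, G (ell h i x - h / 2) =
        D (ell h 0 x - h / 2) + D (ell h 1 x - h / 2) + D (ell h 2 x - h / 2) := by
      show (∑ i, z t (ell h i x - h / 2) - z t (-(h / 2))) - ∑ i, G (ell h i x - h / 2) = _
      rw [hz0, Fin.sum_univ_three, Fin.sum_univ_three]
      show _ = (z t _ - G _) + (z t _ - G _) + (z t _ - G _)
      ring
    rw [e]
    have hl : ∀ i, |ell h i x - h / 2| < h := fun i => (ell_lt hx i).trans (by linarith)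
    refine (sq3 _ _ _).trans ?_
    gcongr
    · rw [hDabs _ (hl 0)]; exact hE1 _
    · rw [hDabs _ (hl 1)]; exact hE1 _
    · rw [hDabs _ (hl 2)]; exact hE1 _
  have hm : ∀ i, Measurable fun x : Fin 3 → ℝ => E |ell h i x - h / 2| := fun i =>
    hEabs.comp (ell_cont h i).measurable
  have hint : ∀ i, ∫⁻ x in TriD h c, E |ell h i x - h / 2| ≤
      C * (2 * ∫⁻ s in Ioo 0 (h / 2), E s) := by
    intro i
    refine (hC2 i (fun y => E |y - h / 2|) hEabs.aemeasurable).trans ?_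
    gcongr
    have := symm_int (h / 2) E
    rwa [mul_div_cancel₀ h (two_ne_zero)] at this
  have hEs : ∫⁻ s in Ioo 0 (h / 2), E s = ∫⁻ y in Ioo 0 (h / 2),
      ‖(∑' k : ℕ, sc (h / 2) G k * Real.exp (-(kap (h / 2) k ^ 2 * t)) *
        Real.sin (kap (h / 2) k * y)) - G y‖ₑ ^ 2 := by
    rw [hE2]
    refine setLIntegral_congr_fun measurableSet_Ioo fun s hs => ?_
    show ‖z t s - G s‖ₑ ^ 2 = _
    rw [hze t s htt.1 htt.2 (hsub hs)]
  calc ∫⁻ x in TriD h c, ‖tri h z t x 2 - ∑ i, G (ell h i x - h / 2)‖ₑ ^ 2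
      ≤ ∫⁻ x in TriD h c, 3 * (E |ell h 0 x - h / 2| + E |ell h 1 x - h / 2| +
        E |ell h 2 x - h / 2|) := setLIntegral_mono' (triD_open h c).measurableSet key
    _ = 3 * ((∫⁻ x in TriD h c, E |ell h 0 x - h / 2|) + (∫⁻ x in TriD h c, E |ell h 1 x - h / 2|) +
        (∫⁻ x in TriD h c, E |ell h 2 x - h / 2|)) := by
        have m1 : Measurable fun x : Fin 3 → ℝ => E |ell h 0 x - h / 2| + E |ell h 1 x - h / 2| :=
          (hm 0).add (hm 1)
        have m2 : Measurable fun x : Fin 3 → ℝ => E |ell h 0 x - h / 2| + E |ell h 1 x - h / 2| +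
            E |ell h 2 x - h / 2| := m1.add (hm 2)
        rw [lintegral_const_mul _ m2, lintegral_add_left m1, lintegral_add_left (hm 0)]
    _ ≤ 3 * (C * (2 * ∫⁻ s in Ioo 0 (h / 2), E s) + C * (2 * ∫⁻ s in Ioo 0 (h / 2), E s) +
        C * (2 * ∫⁻ s in Ioo 0 (h / 2), E s)) :=
        mul_le_mul_right (add_le_add (add_le_add (hint 0) (hint 1)) (hint 2)) _
    _ = 18 * C * ∫⁻ s in Ioo 0 (h / 2), E s := by ring
    _ = _ := by rw [hEs]

end Pool.Agent.H74.TR.T.FINI
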