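import Pool.Agent.H74.TR.Stm
import Pool.Agent.H74.OD.T.INI
import Pool.Agent.H74.OD.T.BDB

/-! # TR-INI -/

set_option autoImplicit false

namespace Pool.Agent.H74.TR.T.INI

open MeasureTheory Filter Topology Set
open scoped ENNReal
open Pool.Agent.H74.OD (kap Rec bc S_INI)
open Pool.Agent.H74.OD.T.INI (orth1 ph ex W W_cont W_bd enorm_sq)

/-- the function of two variables -/
noncomputable def vv (Y : ℝ) (G : ℝ → ℝ) (q : ℝ × ℝ) : ℝ := G q.1 * Real.sin (kap Y 0 * q.2)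

/-- the series in one variable -/
noncomputable def F (Y : ℝ) (G : ℝ → ℝ) (t y : ℝ) : ℝ :=
  ∑' k : ℕ, sc Y G k * Real.exp (-(kap Y k ^ 2 * t)) * Real.sin (kap Y k * y)

lemma rec_meas (Y : ℝ) : (volume.restrict (Rec Y Y) : Measure (ℝ × ℝ)) =
    (volume.restrict (Ioo 0 Y)).prod (volume.restrict (Ioo 0 Y)) := by
  unfold Rec
  rw [Measure.volume_eq_prod, Measure.prod_restrict]

lemma vv_mem {Y : ℝ} {G : ℝ → ℝ} (hG : MemLp G 2 (volume.restrict (Ioo 0 Y))) :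
    MemLp (vv Y G) 2 (volume.restrict (Rec Y Y)) := by
  rw [rec_meas]
  have h1 : MemLp (fun q : ℝ × ℝ => G q.1) 2
      ((volume.restrict (Ioo 0 Y)).prod (volume.restrict (Ioo 0 Y))) := hG.comp_fst _
  refine h1.mono ?_ ?_
  · exact h1.aestronglyMeasurable.mul
      (by fun_prop : Continuous fun q : ℝ × ℝ => Real.sin (kap Y 0 * q.2)).aestronglyMeasurable
  · filter_upwards with q
    unfold vv
    rw [norm_mul]
    exact mul_le_of_le_one_right (norm_nonneg _) (Real.abs_sin_le_one _)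

lemma bc_vv {Y : ℝ} (hY : 0 < Y) (G : ℝ → ℝ) (k n : ℕ) :
    bc Y Y (vv Y G) k n = if n = 0 then sc Y G k else 0 := by
  unfold bc Rec
  have h1 : ∀ q : ℝ × ℝ, vv Y G q * (Real.sin (kap Y k * q.1) * Real.sin (kap Y n * q.2)) =
      (G q.1 * Real.sin (kap Y k * q.1)) * (Real.sin (kap Y 0 * q.2) * Real.sin (kap Y n * q.2)) := by
    intro q
    unfold vv
    ring
  simp_rw [h1]
  rw [Measure.volume_eq_prod, setIntegral_prod_mul (fun x => G x * Real.sin (kap Y k * x))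
    (fun y => Real.sin (kap Y 0 * y) * Real.sin (kap Y n * y)), orth1 hY]
  unfold sc
  by_cases hn : n = 0
  · subst hn
    rw [if_pos rfl, if_pos rfl]
    field_simp
    ring
  · rw [if_neg (Ne.symm hn), if_neg hn, mul_zero, mul_zero]

lemma W_vv {Y : ℝ} (hY : 0 < Y) (G : ℝ → ℝ) (t : ℝ) (q : ℝ × ℝ) :
    W Y Y t (fun p => bc Y Y (vv Y G) p.1 p.2) q =
      F Y G t q.1 * (Real.exp (-(kap Y 0 ^ 2 * t)) * Real.sin (kap Y 0 * q.2)) := by
  unfold W F
  rw [← tsum_mul_right]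
  have hinj : Function.Injective (fun k : ℕ => ((k, 0) : ℕ × ℕ)) := fun a b h => by simpa using h
  rw [← hinj.tsum_eq]
  · refine tsum_congr fun k => ?_
    have e1 : bc Y Y (vv Y G) k 0 = sc Y G k := by rw [bc_vv hY, if_pos rfl]
    have e2 : Real.exp (-((kap Y k ^ 2 + kap Y 0 ^ 2) * t)) =
        Real.exp (-(kap Y k ^ 2 * t)) * Real.exp (-(kap Y 0 ^ 2 * t)) := by
      rw [← Real.exp_add]
      congr 1
      ring
    simp only [ex, ph, e1, e2]
    ring
  · intro p hp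
    obtain ⟨k, n⟩ := p
    by_cases hn : n = 0
    · subst hn
      exact ⟨k, rfl⟩
    · exfalso
      apply hp
      simp [bc_vv hY, hn]

lemma sin_mid {Y : ℝ} (hY : 0 < Y) : Real.sin (kap Y 0 * (Y / 2)) = 1 := by
  have h : kap Y 0 * (Y / 2) = Real.pi / 2 := by
    unfold kap
    push_cast
    field_simp
    ring
  rw [h, Real.sin_pi_div_two]

lemma F_cont {Y t M : ℝ} {G : ℝ → ℝ} (hY : 0 < Y) (ht : 0 < t)
    (hb : ∀ k n, |bc Y Y (vv Y G) k n| ≤ M) : Continuous (F Y G t) := by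
  have h1 : F Y G t = fun x => W Y Y t (fun p => bc Y Y (vv Y G) p.1 p.2) (x, Y / 2) *
      Real.exp (kap Y 0 ^ 2 * t) := by
    funext x
    rw [W_vv hY]
    simp only
    rw [sin_mid hY, mul_one, mul_assoc, ← Real.exp_add, neg_add_cancel, Real.exp_zero, mul_one]
  rw [h1]
  exact ((W_cont hY hY ht (fun p => hb p.1 p.2)).comp
    (by fun_prop : Continuous fun x : ℝ => (x, Y / 2))).mul continuous_const

lemma S_val {Y : ℝ} (hY : 0 < Y) :
    ∫⁻ y in Ioo 0 Y, ‖Real.sin (kap Y 0 * y)‖ₑ ^ 2 = ENNReal.ofReal (Y / 2) := by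
  have h1 := orth1 hY 0 0
  rw [if_pos rfl] at h1
  rw [← h1, ofReal_integral_eq_lintegral_ofReal]
  · refine lintegral_congr fun y => ?_
    rw [enorm_sq, sq]
  · refine Integrable.of_bound (by fun_prop : Continuous fun y : ℝ =>
      Real.sin (kap Y 0 * y) * Real.sin (kap Y 0 * y)).aestronglyMeasurable 1
      (Eventually.of_forall fun y => ?_)
    rw [norm_mul]
    exact mul_le_one₀ (Real.abs_sin_le_one _) (norm_nonneg _) (Real.abs_sin_le_one _)
  · exact Eventually.of_forall fun y => mul_self_nonneg _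

theorem main (h : Pool.Agent.H74.OD.S_INI) : S_INI1 := by
  intro Y G hY hG
  have hv := vv_mem hG
  obtain ⟨M, hM, hb⟩ := Pool.Agent.H74.OD.T.BDB.main Y Y (vv Y G) hY hY hv
  have h0 := h Y Y (vv Y G) hY hY hv
  have hW : ∀ (t : ℝ) (q : ℝ × ℝ), (∑' p : ℕ × ℕ,
      bc Y Y (vv Y G) p.1 p.2 * Real.exp (-((kap Y p.1 ^ 2 + kap Y p.2 ^ 2) * t)) *
      (Real.sin (kap Y p.1 * q.1) * Real.sin (kap Y p.2 * q.2))) =
      F Y G t q.1 * (Real.exp (-(kap Y 0 ^ 2 * t)) * Real.sin (kap Y 0 * q.2)) :=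
    fun t q => W_vv hY G t q
  simp_rw [hW] at h0
  set e : ℝ → ℝ := fun t => Real.exp (-(kap Y 0 ^ 2 * t)) with he
  set S : ℝ≥0∞ := ENNReal.ofReal (Y / 2) with hS
  have hS0 : S ≠ 0 := by
    rw [hS]
    exact (ENNReal.ofReal_pos.2 (by positivity)).ne'
  have hST : S ≠ ⊤ := ENNReal.ofReal_ne_top
  set A : ℝ → ℝ≥0∞ := fun t => ∫⁻ y in Ioo 0 Y, ‖F Y G t y * e t - G y‖ₑ ^ 2 with hA
  have hmeas : ∀ t : ℝ, 0 < t →
      AEMeasurable (fun y => ‖F Y G t y * e t - G y‖ₑ ^ 2) (volume.restrict (Ioo 0 Y)) := by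
    intro t ht
    have h1 : AEStronglyMeasurable (fun y => F Y G t y * e t - G y) (volume.restrict (Ioo 0 Y)) :=
      ((F_cont hY ht hb).mul continuous_const).aestronglyMeasurable.sub hG.aestronglyMeasurable
    exact h1.enorm.pow_const 2
  have hD : ∀ t : ℝ, 0 < t → ∫⁻ q in Rec Y Y,
      ‖F Y G t q.1 * (Real.exp (-(kap Y 0 ^ 2 * t)) * Real.sin (kap Y 0 * q.2)) - vv Y G q‖ₑ ^ 2 =
      A t * S := by
    intro t ht
    rw [rec_meas, hS, ← S_val hY, hA]
    have h1 := lintegral_prod_mul (μ := volume.restrict (Ioo 0 Y)) (ν := volume.restrict (Ioo 0 Y))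
      (f := fun y => ‖F Y G t y * e t - G y‖ₑ ^ 2)
      (g := fun y => ‖Real.sin (kap Y 0 * y)‖ₑ ^ 2) (hmeas t ht)
      ((by fun_prop : Continuous fun y : ℝ =>
        Real.sin (kap Y 0 * y)).aestronglyMeasurable.enorm.pow_const 2)
    rw [← h1]
    refine lintegral_congr fun q => ?_
    rw [← mul_pow, ← enorm_mul]
    congr 2
    unfold vv
    simp only [he]
    ring
  have hAlim : Tendsto A (𝓝[>] 0) (𝓝 0) := by
    have h1 := ENNReal.Tendsto.mul_const h0 (Or.inr (ENNReal.inv_ne_top.2 hS0) : (0 : ℝ≥0∞) ≠ 0 ∨ S⁻¹ ≠ ⊤)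
    rw [zero_mul] at h1
    refine h1.congr' ?_
    filter_upwards [self_mem_nhdsWithin] with t ht
    rw [hD t ht, mul_assoc, ENNReal.mul_inv_cancel hS0 hST, mul_one]
  -- the bound
  set E : ℝ → ℝ := fun t => Real.exp (kap Y 0 ^ 2 * t) with hE
  have hEe : ∀ t, e t * E t = 1 := by
    intro t
    simp only [he, hE]
    rw [← Real.exp_add, neg_add_cancel, Real.exp_zero]
  have hN : ∫⁻ y in Ioo 0 Y, ‖G y‖ₑ ^ 2 < ⊤ := by
    have h1 := hG.integrable_sq.2
    unfold HasFiniteIntegral at h1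
    simpa only [enorm_pow] using h1
  have hpt : ∀ t y : ℝ, ‖F Y G t y - G y‖ₑ ^ 2 ≤
      ENNReal.ofReal (2 * E t ^ 2) * ‖F Y G t y * e t - G y‖ₑ ^ 2 +
        ENNReal.ofReal (2 * (E t - 1) ^ 2) * ‖G y‖ₑ ^ 2 := by
    intro t y
    rw [enorm_sq, enorm_sq, enorm_sq, ← ENNReal.ofReal_mul (by positivity),
      ← ENNReal.ofReal_mul (by positivity), ← ENNReal.ofReal_add (by positivity) (by positivity)]
    apply ENNReal.ofReal_le_ofReal
    have h1 : F Y G t y - G y = E t * (F Y G t y * e t - G y) + (E t - 1) * G y := by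
      linear_combination (-(F Y G t y)) * hEe t
    rw [h1]
    nlinarith [sq_nonneg (E t * (F Y G t y * e t - G y) - (E t - 1) * G y)]
  have hbound : ∀ t : ℝ, 0 < t → ∫⁻ y in Ioo 0 Y, ‖F Y G t y - G y‖ₑ ^ 2 ≤
      ENNReal.ofReal (2 * E t ^ 2) * A t +
        ENNReal.ofReal (2 * (E t - 1) ^ 2) * ∫⁻ y in Ioo 0 Y, ‖G y‖ₑ ^ 2 := by
    intro t ht
    refine (lintegral_mono fun y => hpt t y).trans_eq ?_
    rw [lintegral_add_left' ((hmeas t ht).const_mul _),
      lintegral_const_mul' _ _ ENNReal.ofReal_ne_top, lintegral_const_mul' _ _ ENNReal.ofReal_ne_top]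
  have hEc : Continuous E := by
    simp only [hE]
    fun_prop
  have hE0 : E 0 = 1 := by simp [hE]
  have l1 : Tendsto (fun t => ENNReal.ofReal (2 * E t ^ 2)) (𝓝[>] 0) (𝓝 (ENNReal.ofReal 2)) := by
    have h1 : Tendsto (fun t => 2 * E t ^ 2) (𝓝[>] 0) (𝓝 (2 * E 0 ^ 2)) :=
      ((continuous_const.mul (hEc.pow 2)).tendsto 0).mono_left nhdsWithin_le_nhds
    rw [hE0, one_pow, mul_one] at h1
    exact ENNReal.tendsto_ofReal h1
  have l2 : Tendsto (fun t => ENNReal.ofReal (2 * (E t - 1) ^ 2)) (𝓝[>] 0) (𝓝 0) := by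
    have h1 : Tendsto (fun t => 2 * (E t - 1) ^ 2) (𝓝[>] 0) (𝓝 (2 * (E 0 - 1) ^ 2)) :=
      ((continuous_const.mul ((hEc.sub continuous_const).pow 2)).tendsto 0).mono_left nhdsWithin_le_nhds
    rw [hE0, sub_self] at h1
    have h2 := ENNReal.tendsto_ofReal h1
    simpa using h2
  have l3 := ENNReal.Tendsto.mul l1 (Or.inr ENNReal.zero_ne_top) hAlim (Or.inr ENNReal.ofReal_ne_top)
  have l4 := ENNReal.Tendsto.mul_const l2 (Or.inr hN.ne : (0 : ℝ≥0∞) ≠ 0 ∨ _)
  have l5 := l3.add l4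
  rw [mul_zero, zero_mul, add_zero] at l5
  refine tendsto_of_tendsto_of_tendsto_of_le_of_le' tendsto_const_nhds l5
    (Eventually.of_forall fun t => bot_le) ?_
  filter_upwards [self_mem_nhdsWithin] with t ht
  exact hbound t ht

end Pool.Agent.H74.TR.T.INI
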