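import Pool.Agent.H74.TR.Stm

set_option autoImplicit false

namespace Pool.Agent.H74.TR.T.POI

open MeasureTheory Filter Topology Set
open Pool.Agent.H74.TR

theorem poly (h κ : ℝ) (x : Fin 3 → ℝ) :
    ∑ i, κ * ((ell h i x - h / 2) ^ 3 - h ^ 2 / 4 * (ell h i x - h / 2)) / 3 =
      κ * (ell h 0 x * ell h 1 x * ell h 2 x) := by
  rw [Fin.sum_univ_three]
  have hs : ell h 0 x + ell h 1 x + ell h 2 x = h := by
    simp only [ell, Matrix.cons_val_zero, Matrix.cons_val_one, Matrix.cons_val]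
    ring
  generalize ell h 0 x = a at *
  generalize ell h 1 x = b at *
  generalize ell h 2 x = c at *
  obtain rfl : c = h - a - b := by linarith
  ring

theorem mem (h κ : ℝ) (hh : 0 < h) :
    MemLp (fun s : ℝ => κ * (s ^ 3 - h ^ 2 / 4 * s) / 3) 2 (volume.restrict (Ioo 0 (h / 2))) := by
  have : IsFiniteMeasure (volume.restrict (Ioo (0 : ℝ) (h / 2))) := ⟨by
    rw [Measure.restrict_apply_univ, Real.volume_Ioo]
    exact ENNReal.ofReal_lt_top⟩
  refine MemLp.of_bound (by fun_prop) (|κ| * (h ^ 3 + h ^ 2 / 4 * h) / 3) ?_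
  filter_upwards [ae_restrict_mem measurableSet_Ioo] with s hs
  have h1 : 0 < s := hs.1
  have h2 : s < h := by linarith [hs.2]
  have h3 : s ^ 3 ≤ h ^ 3 := pow_le_pow_left₀ h1.le h2.le 3
  have h4 : h ^ 2 / 4 * s ≤ h ^ 2 / 4 * h := mul_le_mul_of_nonneg_left h2.le (by positivity)
  have h5 : 0 < s ^ 3 := by positivity
  have h6 : 0 < h ^ 2 / 4 * s := by positivity
  rw [Real.norm_eq_abs, abs_div, abs_mul, abs_of_pos (show (0 : ℝ) < 3 by norm_num)]
  apply div_le_div_of_nonneg_right _ (by norm_num)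
  apply mul_le_mul_of_nonneg_left _ (abs_nonneg _)
  rw [abs_le]
  constructor <;> linarith

theorem main (hfin : S_FIN) : S_POI := by
  intro h T κ hh hT
  obtain ⟨u, p, hu⟩ := hfin h T (fun s : ℝ => κ * (s ^ 3 - h ^ 2 / 4 * s) / 3) hh hT
    (fun s => by ring) (mem h κ hh)
  refine ⟨u, p, ?_⟩
  have e : (fun x : Fin 3 → ℝ => ∑ i, κ * ((ell h i x - h / 2) ^ 3 - h ^ 2 / 4 * (ell h i x - h / 2)) / 3) =
      fun x => κ * (ell h 0 x * ell h 1 x * ell h 2 x) := funext fun x => poly h κ x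
  rw [← e]
  exact hu

end Pool.Agent.H74.TR.T.POI
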