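import Pool.Agent.H74.TR.Stm
import Pool.Agent.H74.OD.T.NSP

/-! TR-REG (helper72): derivatives and regularity of the flow in the triangular duct -/

set_option autoImplicit false

namespace Pool.Agent.H74.TR.T.REG

open MeasureTheory Filter Topology Set
open Pool.Agent.H74.OD (One)
open Pool.Agent.H74.CD (pd)
open Pool.Agent.H74.OD.T.NSP (S hS S_contDiff cd0)

/-- the linear part of `ell h j` -/
noncomputable def L (j : Fin 3) : (Fin 3 → ℝ) →L[ℝ] ℝ :=
  ∑ i, cf j i • (ContinuousLinearMap.proj i : (Fin 3 → ℝ) →L[ℝ] ℝ)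

lemma L_apply (j : Fin 3) (x : Fin 3 → ℝ) : L j x = ∑ i, cf j i * x i := by
  simp [L]

lemma L_single (j i : Fin 3) : L j (Pi.single i 1) = cf j i := by
  rw [L_apply, Finset.sum_eq_single i]
  · simp
  · intro k _ hk
    rw [Pi.single_eq_of_ne hk, mul_zero]
  · intro h
    exact absurd (Finset.mem_univ _) h

lemma ell_eq (h : ℝ) (j : Fin 3) (x : Fin 3 → ℝ) : ell h j x = L j x + ell h j 0 := by
  rw [L_apply, Fin.sum_univ_three]
  fin_cases j
  · simp [ell, cf]
  · simp [ell, cf]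
    ring
  · simp [ell, cf]
    ring

lemma ell_sum (h : ℝ) (x : Fin 3 → ℝ) : ell h 0 x + ell h 1 x + ell h 2 x = h := by
  simp [ell]
  ring

lemma ell_fderiv (h : ℝ) (j : Fin 3) (x : Fin 3 → ℝ) :
    HasFDerivAt (fun y => ell h j y - h / 2) (L j) x := by
  have h1 : (fun y => ell h j y - h / 2) = fun y => L j y + (ell h j 0 - h / 2) := by
    funext y
    rw [ell_eq]
    ring
  rw [h1]
  exact (L j).hasFDerivAt.add_const _

lemma ell_contDiff (h : ℝ) (j : Fin 3) (n : WithTop ℕ∞) :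
    ContDiff ℝ n (fun y : Fin 3 → ℝ => ell h j y - h / 2) := by
  have h1 : (fun y => ell h j y - h / 2) = fun y => L j y + (ell h j 0 - h / 2) := by
    funext y
    rw [ell_eq]
    ring
  rw [h1]
  exact (L j).contDiff.add contDiff_const

lemma nb_open (h : ℝ) : IsOpen (Nb h) := by
  have h1 : Nb h = ⋂ i : Fin 3, {x : Fin 3 → ℝ | |ell h i x - h / 2| < h} := by
    ext x
    simp [Nb]
  rw [h1]
  exact isOpen_iInter_of_finite fun i =>
    isOpen_lt ((ell_contDiff h i 0).continuous.abs) continuous_const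

lemma tri_nb {h : ℝ} (hh : 0 < h) : TriC h ⊆ Nb h := by
  intro x hx i
  have h0 := hx 0
  have h1 := hx 1
  have h2 := hx 2
  have h3 := ell_sum h x
  rw [abs_lt]
  fin_cases i
  · change _ < ell h 0 x - h / 2 ∧ ell h 0 x - h / 2 < _
    constructor <;> linarith
  · change _ < ell h 1 x - h / 2 ∧ ell h 1 x - h / 2 < _
    constructor <;> linarith
  · change _ < ell h 2 x - h / 2 ∧ ell h 2 x - h / 2 < _
    constructor <;> linarith

lemma pdsum (h : ℝ) (g g' : ℝ → ℝ) (c : Fin 3 → ℝ) (k : ℝ) (x : Fin 3 → ℝ)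
    (hg : ∀ j, HasDerivAt g (g' (ell h j x - h / 2)) (ell h j x - h / 2)) (i : Fin 3) :
    pd i (fun y => ∑ j, c j * g (ell h j y - h / 2) - k) x =
      ∑ j, c j * cf j i * g' (ell h j x - h / 2) := by
  have hd : HasFDerivAt (fun y => ∑ j, c j * g (ell h j y - h / 2) - k)
      (∑ j, c j • (g' (ell h j x - h / 2) • L j)) x := by
    refine HasFDerivAt.sub_const k ?_
    refine HasFDerivAt.fun_sum fun j _ => ?_
    refine HasFDerivAt.const_mul ?_ (c j)
    exact (hg j).comp_hasFDerivAt x (ell_fderiv h j x)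
  unfold pd
  rw [hd.fderiv, ContinuousLinearMap.sum_apply]
  refine Finset.sum_congr rfl fun j _ => ?_
  change c j * (g' (ell h j x - h / 2) * L j (Pi.single i 1)) = _
  rw [L_single]
  ring

lemma c1 {U : Set ℝ} (hU : IsOpen U) {f f' : ℝ → ℝ} {n : ℕ}
    (h : ∀ x ∈ U, HasDerivAt f (f' x) x) (c : ContDiffOn ℝ n f' U) :
    ContDiffOn ℝ (n + 1) f U := by
  rw [contDiffOn_succ_iff_hasFDerivWithinAt_of_uniqueDiffOn hU.uniqueDiffOn]
  exact ⟨fun h => by simp at h, fun x => S (f' x), (S_contDiff (n := n)).comp_contDiffOn c,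
    fun x hx => (hS (h x hx)).hasFDerivWithinAt⟩

theorem main : S_REG := by
  intro h T b z zt zx zxx hh hz
  have hV : IsOpen {q : ℝ × ℝ | 0 < q.1 ∧ |q.2| < h} :=
    (isOpen_lt continuous_const continuous_fst).inter
      (isOpen_lt continuous_snd.abs continuous_const)
  have hU : IsOpen {s : ℝ | |s| < h} := isOpen_lt continuous_abs continuous_const
  have hct : ContinuousOn (fun q : ℝ × ℝ => zt q.1 q.2) {q | 0 < q.1 ∧ |q.2| < h} :=
    hz.cxx.congr fun q hq => hz.eq q.1 q.2 hq.1 hq.2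
  have hhalf : |(-(h / 2))| < h := by
    rw [abs_neg, abs_of_pos (by positivity)]
    linarith
  have hslice : ∀ g : ℝ → ℝ → ℝ,
      ContinuousOn (fun q : ℝ × ℝ => g q.1 q.2) {q | 0 < q.1 ∧ |q.2| < h} →
      ∀ t, 0 < t → ContinuousOn (g t) {s | |s| < h} := by
    intro g hg t ht
    exact hg.comp (f := fun s : ℝ => (t, s)) (by fun_prop) (fun s hs => ⟨ht, hs⟩)
  have hC1 : ContDiffOn ℝ 1 (fun q : ℝ × ℝ => z q.1 q.2) {q | 0 < q.1 ∧ |q.2| < h} :=
    cd0 (f := z) (f₁ := fun v : ℝ × ℝ => S (zt v.1 v.2)) (f₂ := fun v : ℝ × ℝ => S (zx v.1 v.2)) hV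
      (fun v hv => hS (hz.dt v.1 v.2 hv.1 hv.2)) (fun v hv => hS (hz.dx v.1 v.2 hv.1 hv.2))
      ((S_contDiff (n := 0)).continuous.comp_continuousOn hct)
      ((S_contDiff (n := 0)).continuous.comp_continuousOn hz.cx)
  have hC2 : ∀ t, 0 < t → ContDiffOn ℝ 2 (z t) {s | |s| < h} := by
    intro t ht
    have e0 : ((0 : ℕ) : WithTop ℕ∞) + 1 = ((1 : ℕ) : WithTop ℕ∞) := by simp
    have e1 : ((1 : ℕ) : WithTop ℕ∞) + 1 = 2 := by norm_num
    have g1 := c1 (n := 0) hU (fun s hs => hz.dxx t s ht hs)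
      (by rw [Nat.cast_zero]; exact contDiffOn_zero.2 (hslice zxx hz.cxx t ht))
    rw [e0] at g1
    have g2 := c1 (n := 1) hU (fun s hs => hz.dx t s ht hs) g1
    rw [e1] at g2
    exact g2
  have htri : ∀ t x, tri h z t x 2 = ∑ i, z t (ell h i x - h / 2) - z t (-(h / 2)) :=
    fun t x => rfl
  have hpd1 : ∀ t, 0 < t → ∀ x ∈ Nb h, ∀ i : Fin 3,
      pd i (fun y => tri h z t y 2) x = ∑ j, cf j i * zx t (ell h j x - h / 2) := by
    intro t ht x hx i
    have h1 := pdsum h (z t) (zx t) (fun _ => 1) (z t (-(h / 2))) x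
      (fun j => hz.dx t _ ht (hx j)) i
    simp only [one_mul] at h1
    exact h1
  refine ⟨nb_open h, tri_nb hh, ?_, fun t ht => ?_, fun t ht x hx => ⟨fun i k hk => ?_,
    hpd1 t ht x hx, fun i => ?_⟩⟩
  · refine contDiffOn_pi.2 fun k => ?_
    fin_cases k
    · exact contDiffOn_const
    · exact contDiffOn_const
    · have h1 : ContDiffOn ℝ 1 (fun q : ℝ × (Fin 3 → ℝ) =>
          ∑ i, z q.1 (ell h i q.2 - h / 2) - z q.1 (-(h / 2))) (Ioi 0 ×ˢ Nb h) := by
        refine ContDiffOn.sub (ContDiffOn.sum fun i _ => ?_) ?_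
        · have hQ : ContDiff ℝ 1 (fun q : ℝ × (Fin 3 → ℝ) => (q.1, ell h i q.2 - h / 2)) :=
            contDiff_fst.prodMk ((ell_contDiff h i 1).comp contDiff_snd)
          exact hC1.comp hQ.contDiffOn (fun q hq => ⟨hq.1, hq.2 i⟩)
        · have hQ : ContDiff ℝ 1 (fun q : ℝ × (Fin 3 → ℝ) => (q.1, -(h / 2))) :=
            contDiff_fst.prodMk contDiff_const
          exact hC1.comp hQ.contDiffOn (fun q hq => ⟨hq.1, hhalf⟩)
      exact h1
  · refine contDiffOn_pi.2 fun k => ?_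
    fin_cases k
    · exact contDiffOn_const
    · exact contDiffOn_const
    · have h1 : ContDiffOn ℝ 2 (fun x : Fin 3 → ℝ =>
          ∑ i, z t (ell h i x - h / 2) - z t (-(h / 2))) (Nb h) := by
        refine ContDiffOn.sub (ContDiffOn.sum fun i _ => ?_) contDiffOn_const
        exact (hC2 t ht).comp (ell_contDiff h i 2).contDiffOn (fun x hx => hx i)
      exact h1
  · fin_cases k
    · show fderiv ℝ (fun _ : Fin 3 → ℝ => (0 : ℝ)) x _ = 0
      simp
    · show fderiv ℝ (fun _ : Fin 3 → ℝ => (0 : ℝ)) x _ = 0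
      simp
    · exact absurd rfl hk
  · have he : (fun y => pd i (fun v => tri h z t v 2) y) =ᶠ[𝓝 x]
        fun y => ∑ j, cf j i * zx t (ell h j y - h / 2) - 0 := by
      filter_upwards [(nb_open h).mem_nhds hx] with y hy
      rw [hpd1 t ht y hy i, sub_zero]
    have h1 := pdsum h (zx t) (zxx t) (fun j => cf j i) 0 x (fun j => hz.dxx t _ ht (hx j)) i
    have h2 : pd i (fun y => pd i (fun v => tri h z t v 2) y) x =
        pd i (fun y => ∑ j, cf j i * zx t (ell h j y - h / 2) - 0) x := by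
      change fderiv ℝ _ x _ = fderiv ℝ _ x _
      rw [he.fderiv_eq]
    rw [h2, h1]
    refine Finset.sum_congr rfl fun j _ => ?_
    ring

end Pool.Agent.H74.TR.T.REG
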