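import Pool.Agent.H74.TR.Stm

set_option autoImplicit false

namespace Pool.Agent.H74.TR.T.SPR

open MeasureTheory Filter Topology Set
open Pool.Agent.H74.TR
open Pool.Agent.H74.OD (kap One Rec bc S_INI S_DIS S_ONED)

/-- coefficients on the odd indices -/
noncomputable def bo (b : ℕ → ℝ) (n : ℕ) : ℝ := if n % 2 = 1 then b (n / 2) else 0

theorem bo_odd (b : ℕ → ℝ) (k : ℕ) : bo b (2 * k + 1) = b k := by
  unfold bo
  rw [if_pos (by omega)]
  congr 1
  omega

theorem kap_odd (h : ℝ) (hh : 0 < h) (k : ℕ) : kap h (2 * k + 1) = kap (h / 2) k := by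
  unfold kap
  push_cast
  field_simp
  ring

theorem tsum_odd (b : ℕ → ℝ) (F : ℕ → ℝ) :
    ∑' n : ℕ, bo b n * F n = ∑' k : ℕ, b k * F (2 * k + 1) := by
  have hinj : Function.Injective (fun k : ℕ => 2 * k + 1) := fun a b h => by
    simp only at h
    omega
  rw [← hinj.tsum_eq (f := fun n => bo b n * F n)]
  · exact tsum_congr fun k => by rw [bo_odd]
  · intro n hn
    rw [Function.mem_support] at hn
    have h1 : bo b n ≠ 0 := fun h => hn (by rw [h, zero_mul])
    unfold bo at h1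
    have h2 : n % 2 = 1 := by
      by_contra h
      exact h1 (if_neg h)
    exact ⟨n / 2, by simp only; omega⟩

theorem one_odd {h T : ℝ} {b : ℕ → ℝ} {z zt zx zxx : ℝ → ℝ → ℝ} (H : One h T b z zt zx zxx) :
    One h T b (fun t x => (z t x - z t (-x)) / 2) (fun t x => (zt t x - zt t (-x)) / 2)
      (fun t x => (zx t x + zx t (-x)) / 2) (fun t x => (zxx t x - zxx t (-x)) / 2) := by
  have ab : ∀ x : ℝ, |x| < h → |-x| < h := fun x hx => by rwa [abs_neg]
  have mp : MapsTo (fun q : ℝ × ℝ => (q.1, -q.2)) {q | 0 < q.1 ∧ |q.2| < h} {q | 0 < q.1 ∧ |q.2| < h} :=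
    fun q hq => ⟨hq.1, ab _ hq.2⟩
  have cn : ContinuousOn (fun q : ℝ × ℝ => (q.1, -q.2)) {q | 0 < q.1 ∧ |q.2| < h} := by fun_prop
  refine ⟨?_, ?_, ?_, ?_, ?_, ?_, ?_, ?_, ?_, ?_, ?_⟩
  · intro t x ht hx
    exact ((H.dt t x ht hx).sub (H.dt t (-x) ht (ab x hx))).div_const 2
  · intro t x ht hx
    have h1 := (H.dx t x ht hx).sub ((H.dx t (-x) ht (ab x hx)).comp x (hasDerivAt_neg x))
    refine (h1.div_const 2).congr_deriv ?_
    ring
  · intro t x ht hx
    have h1 := (H.dxx t x ht hx).add ((H.dxx t (-x) ht (ab x hx)).comp x (hasDerivAt_neg x))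
    refine (h1.div_const 2).congr_deriv ?_
    ring
  · intro t x ht hx
    rw [H.eq t x ht hx, H.eq t (-x) ht (ab x hx)]
  · exact (H.cz.sub (H.cz.comp cn mp)).div_const 2
  · exact (H.cx.add (H.cx.comp cn mp)).div_const 2
  · exact (H.cxx.sub (H.cxx.comp cn mp)).div_const 2
  · intro t _
    simp
  · intro t x ht hT hx
    rw [H.early t x ht hT hx, H.early t (-x) ht hT (ab x hx)]
    have e : ∑' k : ℕ, b k * Real.exp (-(kap h k ^ 2 * t)) * Real.sin (kap h k * -x) =
        -∑' k : ℕ, b k * Real.exp (-(kap h k ^ 2 * t)) * Real.sin (kap h k * x) := by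
      rw [← tsum_neg]
      exact tsum_congr fun k => by rw [mul_neg, Real.sin_neg]; ring
    rw [e]
    ring
  · intro t x ht hT hx
    rw [H.earlyx t x ht hT hx, H.earlyx t (-x) ht hT (ab x hx)]
    have e : ∑' k : ℕ, b k * Real.exp (-(kap h k ^ 2 * t)) * (kap h k * Real.cos (kap h k * -x)) =
        ∑' k : ℕ, b k * Real.exp (-(kap h k ^ 2 * t)) * (kap h k * Real.cos (kap h k * x)) :=
      tsum_congr fun k => by rw [mul_neg, Real.cos_neg]
    rw [e]
    ring
  · intro t x hT hx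
    rw [H.late t x hT hx, H.late t (-x) hT (ab x hx)]
    ring

theorem main (hO : S_ONED) : S_SPR := by
  intro h T M hh hT hM b hb
  obtain ⟨C, hC⟩ := hO h T M hh hT hM
  have hb' : ∀ k, |bo b k| ≤ M := by
    intro k
    unfold bo
    split_ifs
    · exact hb _
    · rw [abs_zero]; exact hM.le
  obtain ⟨z, zt, zx, zxx, H, -⟩ := hC (bo b) hb'
  have H' := one_odd H
  refine ⟨bo b, _, _, _, _, H', ?_, ?_, ?_⟩
  · intro t x _ _
    simp only [neg_neg]
    ring
  · intro t x ht hT2 hx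
    rw [H'.early t x ht hT2 hx]
    have e := tsum_odd b (fun k => Real.exp (-(kap h k ^ 2 * t)) * Real.sin (kap h k * x))
    simp only [kap_odd h hh] at e
    simpa only [mul_assoc] using e
  · intro t x ht hT2 hx
    rw [H'.earlyx t x ht hT2 hx]
    have e := tsum_odd b (fun k => Real.exp (-(kap h k ^ 2 * t)) * (kap h k * Real.cos (kap h k * x)))
    simp only [kap_odd h hh] at e
    simpa only [mul_assoc] using e

end Pool.Agent.H74.TR.T.SPR
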